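import Pool.Agent.Helper57.ZF.Goals

/-!
Project ZF: assembly of the covering lemma.
-/

set_option autoImplicit false

namespace Pool.Agent.Helper57.ZF

theorem cnt_le_card {α : Type} (s : Finset α) (q : α → Prop) : cnt s q ≤ s.card := by
  classical
  rw [cnt_eq]
  exact Finset.card_filter_le _ _

theorem cnt_mono {α : Type} {s s' : Finset α} {q q' : α → Prop} (hs : s ⊆ s')
    (h : ∀ x ∈ s, q x → q' x) : cnt s q ≤ cnt s' q' := by
  classical
  rw [cnt_eq, cnt_eq]
  refine Finset.card_le_card ?_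
  intro x hx
  rw [Finset.mem_filter] at hx ⊢
  exact ⟨hs hx.1, h x hx.1 hx.2⟩

/-- Leaves with the nearest-leaf map. -/
theorem exists_leaf (hRAD : G_RAD) (hGL : G_GL) (M : Type) [MetricSpace M] (P : Finset M) (t : ℕ)
    (ht : 2 ≤ t) (htP : t ≤ P.card) :
    ∃ (rad : M → ℝ) (L : Finset M) (w : M → M), Leaf P t rad L w := by
  obtain ⟨rad, hrad⟩ := hRAD M P t ht htP
  obtain ⟨L, hLP, hsep, hdom⟩ := hGL M P rad (fun p hp => (hrad p hp).1)
  have hPne : P.Nonempty := by
    rw [← Finset.card_pos]; omega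
  have hLne : L.Nonempty := by
    obtain ⟨p, hp⟩ := hPne
    obtain ⟨q, hq, -⟩ := hdom p hp
    exact ⟨q, hq⟩
  have hmin : ∀ p : M, ∃ x ∈ L, ∀ q ∈ L, dist p x ≤ dist p q :=
    fun p => Finset.exists_min_image L (fun q => dist p q) hLne
  choose w hwL hw using hmin
  exact ⟨rad, L, w, ht, fun p hp => (hrad p hp).1, fun p hp => (hrad p hp).2.1,
    fun p hp => (hrad p hp).2.2, hLP, hsep, hdom, fun p _ => hwL p, fun p _ q hq => hw p q hq⟩

theorem leaf_rho_le {M : Type} [MetricSpace M] {P : Finset M} {t : ℕ} {rad : M → ℝ}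
    {L : Finset M} {w : M → M} (h : Leaf P t rad L w) {p : M} (hp : p ∈ P) :
    dist p (w p) ≤ 8 * rad p := by
  obtain ⟨q, hq, -, hd⟩ := h.dom p hp
  exact (h.wmin p hp q hq).trans hd

theorem mem_clus {M : Type} [MetricSpace M] {L : Finset M} {w : M → M} {p q : M} :
    q ∈ clus L w p ↔ q ∈ L ∧ dist q (w p) ≤ dist p (w p) / 32 := by
  classical
  unfold clus
  rw [Finset.mem_filter]

/-- The covering lemma from its parts. -/
theorem CL_of (hRAD : G_RAD) (hGL : G_GL) (hLC : G_LC) (hNEAR : G_NEAR) (hCROWD : G_CROWD)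
    (hCLUS : G_CLUS) (hBLK : G_BLK) (hOVL : G_OVL) (hISO : G_ISO) (hDISJ : G_DISJ) : G_CL := by
  classical
  intro M _ hD
  obtain ⟨C₁, hC₁⟩ := hNEAR M hD
  obtain ⟨C₂, hC₂⟩ := hCROWD M hD
  obtain ⟨C₃, hC₃⟩ := hCLUS M hD
  obtain ⟨N, hN⟩ := hLC M hD 34
  refine ⟨C₁ + C₂ + C₃ + N + 4, ?_⟩
  intro P t ht htP
  obtain ⟨rad, L, w, hleaf⟩ := exists_leaf hRAD hGL M P t ht htP
  have hPne : P.Nonempty := by
    rw [← Finset.card_pos]; omega
  obtain ⟨p₀, hp₀⟩ := hPne
  set U : Finset M := P.filter (fun p => IsoP rad L w p) with hU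
  set K : Finset (Finset M) := U.image (fun p => clus L w p) with hK
  -- representatives
  have hrep : ∀ c : Finset M, ∃ u : M, c ∈ K → u ∈ c := by
    intro c
    by_cases hc : c ∈ K
    · rw [hK, Finset.mem_image] at hc
      obtain ⟨p, hpU, rfl⟩ := hc
      have hpP : p ∈ P := (Finset.mem_filter.1 hpU).1
      refine ⟨w p, fun _ => mem_clus.2 ⟨hleaf.wmem p hpP, ?_⟩⟩
      rw [dist_self]
      positivity
    · exact ⟨p₀, fun h => absurd h hc⟩
  choose u hu using hrep
  -- blocks
  have hblk := fun c : Finset M => hBLK M (U.filter (fun p => clus L w p = c))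
    (fun x => dist x (u c)) t (by omega)
  choose k B hB1 hB2 hB3 using hblk
  have hlohi : ∀ (c : Finset M) (i : ℕ), ∃ lo hi : M, i < k c →
      lo ∈ B c i ∧ hi ∈ B c i ∧ ∀ x ∈ B c i, dist lo (u c) ≤ dist x (u c) ∧
        dist x (u c) ≤ dist hi (u c) := by
    intro c i
    by_cases hi : i < k c
    · have hne : (B c i).Nonempty := by
        rw [← Finset.card_pos, (hB1 c i hi).2]; omega
      obtain ⟨lo, hlo, hlo'⟩ := Finset.exists_min_image (B c i) (fun x => dist x (u c)) hne
      obtain ⟨hh, hhi, hhi'⟩ := Finset.exists_max_image (B c i) (fun x => dist x (u c)) hne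
      exact ⟨lo, hh, fun _ => ⟨hlo, hhi, fun x hx => ⟨hlo' x hx, hhi' x hx⟩⟩⟩
    · exact ⟨p₀, p₀, fun h => absurd h hi⟩
  choose lo hi hlohi using hlohi
  -- facts on members of blocks
  have hBU : ∀ c i, i < k c → ∀ x ∈ B c i, x ∈ P ∧ IsoP rad L w x ∧ clus L w x = c := by
    intro c i hi' x hx
    have := (hB1 c i hi').1 hx
    rw [Finset.mem_filter, hU, Finset.mem_filter] at this
    exact ⟨this.1.1, this.1.2, this.2⟩
  have hfarpos : ∀ c, c ∈ K → ∀ x, x ∈ P → IsoP rad L w x → clus L w x = c →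
      0 < dist x (u c) ∧ dist x (u c) ≤ 33 / 32 * dist x (w x) ∧ 0 < dist x (w x) := by
    intro c hc x hxP hxI hxc
    have h1 : u c ∈ clus L w x := by rw [hxc]; exact hu c hc
    rw [mem_clus] at h1
    have h2 := hleaf.radpos (w x) (hleaf.sub (hleaf.wmem x hxP))
    have h3 := hxI.1
    have h4 : dist x (w x) ≤ dist x (u c) + dist (u c) (w x) := dist_triangle _ _ _
    have h5 : dist x (u c) ≤ dist x (w x) + dist (w x) (u c) := dist_triangle _ _ _
    rw [dist_comm (w x) (u c)] at h5
    refine ⟨by linarith [h1.2], by linarith [h1.2], by linarith⟩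
  let Ss : M ⊕ (Σ _ : Finset M, ℕ) → Finset M := fun i => match i with
    | Sum.inl q => P.filter (fun x => dist x q ≤ rad q)
    | Sum.inr ⟨c, i⟩ => B c i
  let ws : M ⊕ (Σ _ : Finset M, ℕ) → M := fun i => match i with
    | Sum.inl q => q
    | Sum.inr ⟨c, _⟩ => u c
  let bs : M ⊕ (Σ _ : Finset M, ℕ) → ℝ := fun i => match i with
    | Sum.inl _ => -1
    | Sum.inr ⟨c, i⟩ => dist (lo c i) (u c) / 2
  let rs : M ⊕ (Σ _ : Finset M, ℕ) → ℝ := fun i => match i with
    | Sum.inl q => rad q
    | Sum.inr ⟨c, i⟩ => dist (hi c i) (u c)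
  refine ⟨M ⊕ (Σ _ : Finset M, ℕ), L.disjSum (K.sigma fun c => Finset.range (k c)), Ss, ws, bs, rs,
    ?_, ?_, ?_⟩
  · intro i hi'
    rw [Finset.mem_disjSum] at hi'
    rcases hi' with ⟨q, hq, rfl⟩ | ⟨⟨c, i⟩, hci, rfl⟩
    · have hqP := hleaf.sub hq
      refine ⟨Finset.filter_subset _ _, ?_, Or.inl (by simp [bs]), ?_⟩
      · have := hleaf.big q hqP
        rw [cnt_eq] at this
        exact this
      · intro p hp
        have hp' := (Finset.mem_filter.1 hp).2
        refine ⟨hp', ?_⟩
        have : (0 : ℝ) ≤ dist p (ws (Sum.inl q)) := dist_nonneg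
        simp only [bs]
        linarith
    · rw [Finset.mem_sigma, Finset.mem_range] at hci
      have hik : i < k c := hci.2
      have hcK : c ∈ K := hci.1
      obtain ⟨hlo1, hhi1, hall⟩ := hlohi c i hik
      obtain ⟨hloP, hloI, hloc⟩ := hBU c i hik _ hlo1
      have hpos := (hfarpos c hcK _ hloP hloI hloc).1
      refine ⟨?_, ?_, Or.inr (by simp only [bs]; linarith), ?_⟩
      · intro x hx
        exact (hBU c i hik x hx).1
      · show t ≤ (B c i).card
        rw [(hB1 c i hik).2]
      · intro p hp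
        have := hall p hp
        refine ⟨this.2, ?_⟩
        simp only [bs, ws]
        linarith [this.1]
  · intro z
    have h1 : cnt (L.disjSum (K.sigma fun c => Finset.range (k c)))
        (fun i => bs i < dist z (ws i) ∧ dist z (ws i) ≤ 2 * rs i) ≤
        cnt L (fun q => dist z q ≤ 2 * rad q) +
        cnt (K.sigma fun c => Finset.range (k c)) (fun ci => dist (lo ci.1 ci.2) (u ci.1) / 2 <
          dist z (u ci.1) ∧ dist z (u ci.1) ≤ 2 * dist (hi ci.1 ci.2) (u ci.1)) := by
      rw [cnt_eq, cnt_eq, cnt_eq, ← Finset.card_disjSum]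
      refine Finset.card_le_card ?_
      intro i hi'
      rw [Finset.mem_filter, Finset.mem_disjSum] at hi'
      rw [Finset.mem_disjSum]
      rcases hi'.1 with ⟨q, hq, rfl⟩ | ⟨⟨c, i⟩, hci, rfl⟩
      · left
        exact ⟨q, Finset.mem_filter.2 ⟨hq, hi'.2.2⟩, rfl⟩
      · right
        exact ⟨⟨c, i⟩, Finset.mem_filter.2 ⟨hci, hi'.2⟩, rfl⟩
    have h2 : cnt L (fun q => dist z q ≤ 2 * rad q) ≤ 1 := by
      rw [cnt_eq, Finset.card_le_one]
      intro q hq q' hq'
      rw [Finset.mem_filter] at hq hq'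
      by_contra hne
      have e1 := hleaf.sep q hq.1 q' hq'.1 hne
      have e2 := hleaf.sep q' hq'.1 q hq.1 (Ne.symm hne)
      rw [dist_comm q' q] at e2
      have e3 : dist q q' ≤ dist q z + dist z q' := dist_triangle _ _ _
      rw [dist_comm q z] at e3
      have e4 := hleaf.radpos q (hleaf.sub hq.1)
      have e5 := hleaf.radpos q' (hleaf.sub hq'.1)
      linarith [hq.2, hq'.2]
    have h3 : cnt (K.sigma fun c => Finset.range (k c)) (fun ci => dist (lo ci.1 ci.2) (u ci.1) / 2 <
          dist z (u ci.1) ∧ dist z (u ci.1) ≤ 2 * dist (hi ci.1 ci.2) (u ci.1)) ≤ N + 2 := by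
      by_contra hcon
      push Not at hcon
      rw [cnt_eq] at hcon
      set G := (K.sigma fun c => Finset.range (k c)).filter (fun ci => dist (lo ci.1 ci.2) (u ci.1) / 2 <
          dist z (u ci.1) ∧ dist z (u ci.1) ≤ 2 * dist (hi ci.1 ci.2) (u ci.1)) with hG
      have hGne : G.Nonempty := by
        rw [← Finset.card_pos]; omega
      obtain ⟨⟨c, i₀⟩, hci⟩ := hGne
      -- isolation at every member of G
      have hiso : ∀ c' i', (⟨c', i'⟩ : Σ _ : Finset M, ℕ) ∈ G → c' ⊆ L ∧ u c' ∈ c' ∧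
          0 < dist z (u c') ∧ (∀ q ∈ c', dist q (u c') ≤ dist z (u c') / 7) ∧
          (∀ q ∈ L, dist q (u c') ≤ 15 * dist z (u c') → q ∈ c') := by
        intro c' i' hc'
        rw [hG, Finset.mem_filter, Finset.mem_sigma, Finset.mem_range] at hc'
        obtain ⟨⟨hcK, hik⟩, hreg⟩ := hc'
        simp only at hcK hik hreg
        obtain ⟨hlo1, hhi1, -⟩ := hlohi c' i' hik
        obtain ⟨hloP, hloI, hloc⟩ := hBU c' i' hik _ hlo1
        obtain ⟨hhiP, hhiI, hhic⟩ := hBU c' i' hik _ hhi1
        have huc := hu c' hcK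
        have := hISO M P t rad L w hleaf _ hloP _ hhiP hloI hhiI (hloc.trans hhic.symm) (u c')
          (by rw [hloc]; exact huc) (dist z (u c')) hreg.1 hreg.2
        rw [hloc] at this
        refine ⟨?_, huc, this.1, this.2.1, this.2.2⟩
        intro q hq
        rw [← hloc, mem_clus] at hq
        exact hq.1
      obtain ⟨a1, a2, a3, a4, a5⟩ := hiso c i₀ hci
      have hsame : ∀ c' i', (⟨c', i'⟩ : Σ _ : Finset M, ℕ) ∈ G → c' = c := by
        intro c' i' hc'
        obtain ⟨b1, b2, b3, b4, b5⟩ := hiso c' i' hc'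
        exact (hDISJ M L c c' (u c) (u c') z _ _ a1 b1 a2 b2 a3 b3 rfl rfl a4 a5 b4 b5).symm
      -- the indices
      set J : Finset ℕ := (Finset.range (k c)).filter (fun i => dist (lo c i) (u c) / 2 <
          dist z (u c) ∧ dist z (u c) ≤ 2 * dist (hi c i) (u c)) with hJ
      have hcK : c ∈ K := by
        rw [hG, Finset.mem_filter, Finset.mem_sigma] at hci
        exact hci.1.1
      have hGJ : G.card ≤ J.card := by
        have : G ⊆ J.image (fun i => (⟨c, i⟩ : Σ _ : Finset M, ℕ)) := by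
          rintro ⟨c', i'⟩ hc'
          have e := hsame c' i' hc'
          subst e
          rw [Finset.mem_image]
          refine ⟨i', ?_, rfl⟩
          rw [hG, Finset.mem_filter, Finset.mem_sigma] at hc'
          rw [hJ, Finset.mem_filter]
          exact ⟨hc'.1.2, hc'.2⟩
        exact (Finset.card_le_card this).trans Finset.card_image_le
      have hov := hOVL M (U.filter (fun p => clus L w p = c)) (fun x => dist x (u c)) t (k c) (B c)
        (dist z (u c)) J (hB1 c) (hB2 c) (by
          intro i hiJ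
          rw [hJ, Finset.mem_filter, Finset.mem_range] at hiJ
          obtain ⟨hlo1, hhi1, -⟩ := hlohi c i hiJ.1
          exact ⟨hiJ.1, ⟨_, hlo1, by linarith [hiJ.2.1]⟩, ⟨_, hhi1, hiJ.2.2⟩⟩)
      have hcnt : cnt (U.filter (fun p => clus L w p = c))
          (fun x => dist z (u c) ≤ 2 * dist x (u c) ∧ dist x (u c) ≤ 2 * dist z (u c)) ≤ N * t := by
        refine le_trans ?_ (hN P t rad hleaf.small (u c) (2 * dist z (u c)) (dist z (u c) / 17)
          (by positivity) (by linarith))
        refine cnt_mono (fun x hx => (Finset.mem_filter.1 (Finset.mem_filter.1 hx).1).1) ?_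
        intro x hx hx2
        rw [Finset.mem_filter, hU, Finset.mem_filter] at hx
        have e1 := hfarpos c hcK x hx.1.1 hx.1.2 hx.2
        have e2 := leaf_rho_le hleaf hx.1.1
        refine ⟨hx2.2, ?_⟩
        linarith [e1.2.1, hx2.1]
      have hfin : J.card * t ≤ (N + 2) * t := by
        have := hov.trans (Nat.add_le_add_right hcnt _)
        linarith [this]
      have : J.card ≤ N + 2 := Nat.le_of_mul_le_mul_right hfin (by omega)
      omega
    omega
  · -- cardinality
    rw [Finset.card_disjSum, Finset.card_sigma]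
    have hI : ∑ c ∈ K, (Finset.range (k c)).card = ∑ c ∈ K, k c := by simp
    rw [hI]
    have e1 := hC₁ P t rad L w hleaf
    have e2 := hC₂ P t rad L w hleaf
    have e3 := hC₃ P t rad L w hleaf
    have e4 : P.card ≤ cnt P (fun p => dist p (w p) ≤ 32 * rad (w p)) +
        cnt P (fun p => 32 * rad (w p) < dist p (w p) ∧ Crowded L w p) + U.card := by
      rw [cnt_eq, cnt_eq]
      have : P ⊆ (P.filter (fun p => dist p (w p) ≤ 32 * rad (w p)) ∪
          P.filter (fun p => 32 * rad (w p) < dist p (w p) ∧ Crowded L w p)) ∪ U := by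
        intro p hp
        simp only [Finset.mem_union, Finset.mem_filter, hU, hp, true_and, IsoP]
        by_cases h1 : dist p (w p) ≤ 32 * rad (w p)
        · exact Or.inl (Or.inl h1)
        · push Not at h1
          by_cases h2 : Crowded L w p
          · exact Or.inl (Or.inr ⟨h1, h2⟩)
          · exact Or.inr ⟨h1, h2⟩
      refine (Finset.card_le_card this).trans ((Finset.card_union_le _ _).trans ?_)
      exact Nat.add_le_add_right (Finset.card_union_le _ _) _
    have e5 : U.card ≤ ∑ c ∈ K, t * (k c + 1) := by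
      have h : U.card = ∑ c ∈ K, (U.filter (fun p => clus L w p = c)).card :=
        Finset.card_eq_sum_card_fiberwise (fun p hp => Finset.mem_image_of_mem _ hp)
      rw [h]
      exact Finset.sum_le_sum (fun c _ => (hB3 c).le)
    have e6 : ∑ c ∈ K, t * (k c + 1) = t * (∑ c ∈ K, k c) + t * K.card := by
      rw [← Finset.mul_sum, Finset.sum_add_distrib, Finset.sum_const, smul_eq_mul, mul_one, mul_add]
    have e7 : K.card ≤ C₃ * L.card := e3
    have e8 : t * K.card ≤ t * (C₃ * L.card) := Nat.mul_le_mul_left _ e7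
    calc P.card ≤ C₁ * t * L.card + C₂ * t * L.card + (t * (∑ c ∈ K, k c) + t * (C₃ * L.card)) := by
          omega
      _ ≤ (C₁ + C₂ + C₃ + N + 4) * t * (L.card + ∑ c ∈ K, k c) := by
          set s := ∑ c ∈ K, k c
          have : (C₁ + C₂ + C₃ + N + 4) * t * (L.card + s) =
            C₁ * t * L.card + C₂ * t * L.card + (t * s + t * (C₃ * L.card)) +
            ((C₁ + C₂ + C₃ + N + 3) * (t * s) + (N + 4) * (t * L.card)) := by ring
          rw [this]
          exact Nat.le_add_right _ _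

end Pool.Agent.Helper57.ZF
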