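import Pool.Agent.Helper57.ZF.Goals
import Pool.Agent.Helper57.ZF.CL

/-!
Project ZF: the main theorem for graphs, assembly.
-/

set_option autoImplicit false

namespace Pool.Agent.Helper57.ZF

theorem conf_lin {E : Type} [NormedAddCommGroup E] [NormedSpace ℝ E] {κ : ℝ}
    {P : Finset (E × E)} {F : Finset ((E →L[ℝ] E) × E)} (h : Conf κ P F) : Lin P F On := by
  classical
  intro p hp q hq hpq
  rw [cnt_eq, Finset.card_le_one]
  intro f hf g hg
  rw [Finset.mem_filter] at hf hg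
  by_contra hne
  obtain ⟨hfF, hfp, hfq⟩ := hf
  obtain ⟨hgF, hgp, hgq⟩ := hg
  have h1 := h f hfF g hgF hne p hp hfp hgp (p.1 - q.1)
  unfold On at hfp hfq hgp hgq
  have h2 : (f.1 - g.1) (p.1 - q.1) = 0 := by
    have a1 : f.1 p.1 + f.2 = g.1 p.1 + g.2 := by rw [← hfp, ← hgp]
    have a2 : f.1 q.1 + f.2 = g.1 q.1 + g.2 := by rw [← hfq, ← hgq]
    have a3 : (f.1 p.1 + f.2) - (f.1 q.1 + f.2) = (g.1 p.1 + g.2) - (g.1 q.1 + g.2) := by
      rw [a1, a2]
    rw [sub_apply, map_sub, map_sub]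
    rw [add_sub_add_right_eq_sub, add_sub_add_right_eq_sub] at a3
    rw [a3, sub_self]
  rw [h2, norm_zero, mul_zero] at h1
  have h3 : ‖f.1 - g.1‖ * ‖p.1 - q.1‖ = 0 := le_antisymm h1 (by positivity)
  rcases mul_eq_zero.1 h3 with h4 | h4
  · have h5 : f.1 = g.1 := sub_eq_zero.1 (norm_eq_zero.1 h4)
    apply hne
    have h6 : f.2 = g.2 := by
      have a1 : f.1 p.1 + f.2 = g.1 p.1 + g.2 := by rw [← hfp, ← hgp]
      rw [h5] at a1
      exact add_left_cancel a1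
    exact Prod.ext h5 h6
  · have h5 : p.1 = q.1 := sub_eq_zero.1 (norm_eq_zero.1 h4)
    apply hpq
    refine Prod.ext h5 ?_
    rw [hfp, hfq, h5]

theorem lin_sub {α β : Type} {P P' : Finset α} {F F' : Finset β} {R : α → β → Prop}
    (h : Lin P F R) (hP : P' ⊆ P) (hF : F' ⊆ F) : Lin P' F' R := by
  intro p hp q hq hpq
  exact (cnt_mono hF (fun _ _ h => h)).trans (h p (hP hp) q (hP hq) hpq)

theorem conf_sub {E : Type} [NormedAddCommGroup E] [NormedSpace ℝ E] {κ : ℝ}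
    {P P' : Finset (E × E)} {F F' : Finset ((E →L[ℝ] E) × E)} (h : Conf κ P F)
    (hP : P' ⊆ P) (hF : F' ⊆ F) : Conf κ P' F' :=
  fun f hf g hg hne p hp h1 h2 => h f (hF hf) g (hF hg) hne p (hP hp) h1 h2

theorem ext_mono {α β : Type} {P : Finset α} {F : Finset β} {R : α → β → Prop} {ε ε' : ℝ}
    (h : ExtP P F R ε) (hε : ε ≤ ε') : ExtP P F R ε' := by
  intro P' hP' F' hF'
  refine (h P' hP' F' hF').trans (mul_le_mul_of_nonneg_left (by linarith) (Nat.cast_nonneg _))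

theorem inc_pos_ne {α β : Type} {P : Finset α} {F : Finset β} {R : α → β → Prop}
    (h : 0 < inc P F R) : P.Nonempty ∧ F.Nonempty := by
  classical
  unfold inc at h
  have h1 : ∃ p ∈ P, cnt F (R p) ≠ 0 := by
    by_contra hcon
    push Not at hcon
    rw [Finset.sum_eq_zero hcon] at h
    exact absurd h (lt_irrefl _)
  obtain ⟨p, hp, hc⟩ := h1
  refine ⟨⟨p, hp⟩, ?_⟩
  rw [cnt_eq] at hc
  have h2 : (F.filter (R p)).Nonempty := by
    rw [← Finset.card_pos]; omega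
  obtain ⟨f, hf⟩ := h2
  exact ⟨f, (Finset.mem_filter.1 hf).1⟩

open scoped Classical in
/-- The main theorem for graphs, from its parts. -/
theorem MAINI_of (hDBL : G_DBL) (hCUT : G_CUT) (hEXT : G_EXT) (hTRANS : G_TRANS) : G_MAINI := by
  intro E _ _ _ κ
  obtain ⟨κ', hκ'⟩ : ∃ κ' : ℝ, κ' = max κ 1 := ⟨_, rfl⟩
  have hκ1 : 1 ≤ κ' := by rw [hκ']; exact le_max_right _ _
  have hκκ : κ ≤ κ' := by rw [hκ']; exact le_max_left _ _
  obtain ⟨ε, c, hε, hc, hcut⟩ := hCUT (E →L[ℝ] E) (hDBL (E →L[ℝ] E)) (26 * κ' + 1) (by linarith)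
  obtain ⟨M₀, hM₀⟩ := hEXT (min ε c) (lt_min hε hc)
  obtain ⟨C₀, hC₀⟩ := hTRANS E
  obtain ⟨M, hM⟩ : ∃ M : ℝ, M = max M₀ (C₀ / c ^ 4 + 2 / c ^ 2 + 1) := ⟨_, rfl⟩
  have hMM₀ : M₀ ≤ M := by rw [hM]; exact le_max_left _ _
  have hM1 : C₀ / c ^ 4 + 2 / c ^ 2 + 1 ≤ M := by rw [hM]; exact le_max_right _ _
  have hq1 : (0 : ℝ) ≤ C₀ / c ^ 4 := by positivity
  have hq2 : (0 : ℝ) < 2 / c ^ 2 := by positivity
  refine ⟨M, ?_⟩
  intro P F hconf
  by_contra hlt
  push Not at hlt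
  obtain ⟨P', hP', F', hF', hbd, hext, hPc⟩ := hM₀ M hMM₀ (E × E) ((E →L[ℝ] E) × E) P F On
    (conf_lin hconf) hlt
  have hconf' := conf_sub hconf hP' hF'
  obtain ⟨I, hI⟩ : ∃ I : ℝ, I = (inc P' F' On : ℝ) := ⟨_, rfl⟩
  obtain ⟨n, hn⟩ : ∃ n : ℝ, n = (P'.card : ℝ) := ⟨_, rfl⟩
  obtain ⟨m, hm⟩ : ∃ m : ℝ, m = (F'.card : ℝ) := ⟨_, rfl⟩
  have hbd' : M * (((n * m) ^ (2 / 3 : ℝ)) + n + m) < I := by
    rw [hI, hn, hm]
    exact hbd
  have hn0' : 0 ≤ n := by rw [hn]; positivity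
  have hm0' : 0 ≤ m := by rw [hm]; positivity
  have hrp0 : 0 ≤ (n * m) ^ (2 / 3 : ℝ) := Real.rpow_nonneg (by positivity) _
  have hMpos : 0 < M := by linarith
  have hI0 : 0 < I := by
    have : 0 ≤ M * (((n * m) ^ (2 / 3 : ℝ)) + n + m) := by positivity
    linarith
  have hInat : 0 < inc P' F' On := by
    rw [hI] at hI0
    exact_mod_cast hI0
  obtain ⟨hPne, hFne⟩ := inc_pos_ne hInat
  have hn0 : 0 < n := by rw [hn]; exact_mod_cast hPne.card_pos
  have hm0 : 0 < m := by rw [hm]; exact_mod_cast hFne.card_pos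
  obtain ⟨B, r, hr, hcard⟩ := hcut (E × E) ((E →L[ℝ] E) × E) P' F' On (fun f => f.1) hPne
    (ext_mono hext (min_le_left _ _)) (by
      intro p hp f hf g hg hne hpf hpg heq
      apply hne
      refine Prod.ext heq ?_
      unfold On at hpf hpg
      have a1 : f.1 p.1 + f.2 = g.1 p.1 + g.2 := by rw [← hpf, ← hpg]
      rw [heq] at a1
      exact add_left_cancel a1) (hPc.trans (by
        exact mul_le_mul_of_nonneg_right (min_le_right _ _) (Nat.cast_nonneg _)))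
  rw [cnt_eq, ← hn] at hcard
  simp only [← hI] at hcard
  set Q : Finset (E × E) := P'.filter (fun p =>
    c * I ≤ n * cnt F' (fun f => On p f ∧ dist f.1 B ≤ r) ∧
    c * I ≤ n * cnt F' (fun f => On p f ∧ (26 * κ' + 1) * r < dist f.1 B)) with hQ
  have hQP : Q ⊆ P' := Finset.filter_subset _ _
  obtain ⟨k, hk⟩ : ∃ k : ℕ, k = ⌈c * I / n⌉₊ := ⟨_, rfl⟩
  have hk1 : c * I / n ≤ k := by rw [hk]; exact Nat.le_ceil _
  set F₁ : Finset ((E →L[ℝ] E) × E) := F'.filter (fun f => dist f.1 B ≤ r) with hF₁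
  set F₂ : Finset ((E →L[ℝ] E) × E) := F'.filter (fun f => (26 * κ' + 1) * r < dist f.1 B ∧
    ∃ p ∈ Q, On p f) with hF₂
  have hkF₁ : ∀ p ∈ Q, k ≤ cnt F₁ (On p) := by
    intro p hp
    have h1 := (Finset.mem_filter.1 hp).2.1
    have h2 : cnt F₁ (On p) = cnt F' (fun f => On p f ∧ dist f.1 B ≤ r) := by
      rw [cnt_eq, cnt_eq, hF₁, Finset.filter_filter]
      congr 1
      ext f
      simp only [Finset.mem_filter]
      tauto
    rw [h2, hk]
    refine Nat.ceil_le.2 ?_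
    rw [div_le_iff₀ hn0]
    linarith
  have hkF₂ : ∀ p ∈ Q, k ≤ cnt F₂ (On p) := by
    intro p hp
    have h1 := (Finset.mem_filter.1 hp).2.2
    have h2 : cnt F₂ (On p) = cnt F' (fun f => On p f ∧ (26 * κ' + 1) * r < dist f.1 B) := by
      rw [cnt_eq, cnt_eq, hF₂, Finset.filter_filter]
      congr 1
      ext f
      simp only [Finset.mem_filter]
      constructor
      · rintro ⟨h1, ⟨h2, -⟩, h4⟩
        exact ⟨h1, h4, h2⟩
      · rintro ⟨h1, h2, h3⟩
        exact ⟨h1, ⟨h3, p, hp, h2⟩, h2⟩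
    rw [h2, hk]
    refine Nat.ceil_le.2 ?_
    rw [div_le_iff₀ hn0]
    linarith
  have hout : ∀ f ∈ F₂, ∀ v, 25 * r * ‖v‖ ≤ ‖(f.1 - B) v‖ := by
    intro f hf v
    rw [hF₂, Finset.mem_filter] at hf
    obtain ⟨hfF, hfd, p, hpQ, hpf⟩ := hf
    have h1 := (Finset.mem_filter.1 hpQ).2.1
    have h2 : 0 < cnt F' (fun f => On p f ∧ dist f.1 B ≤ r) := by
      have h3 : 0 < c * I := by positivity
      by_contra h0
      have h4 : cnt F' (fun f => On p f ∧ dist f.1 B ≤ r) = 0 := by omega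
      rw [h4] at h1
      simp only [Nat.cast_zero, mul_zero] at h1
      linarith
    rw [cnt_eq, Finset.card_pos] at h2
    obtain ⟨g, hg⟩ := h2
    rw [Finset.mem_filter] at hg
    obtain ⟨hgF, hpg, hgd⟩ := hg
    have hne : f ≠ g := by
      rintro rfl
      have : r ≤ (26 * κ' + 1) * r := by nlinarith
      linarith
    have h5 := hconf' f hfF g hgF hne p (hQP hpQ) hpf hpg v
    have h6 : ‖f.1 - g.1‖ ≥ 26 * κ' * r := by
      have a1 := dist_triangle f.1 g.1 B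
      rw [dist_eq_norm f.1 g.1] at a1
      linarith
    have h7 : κ * ‖(f.1 - g.1) v‖ ≤ κ' * ‖(f.1 - g.1) v‖ :=
      mul_le_mul_of_nonneg_right hκκ (norm_nonneg _)
    have h8 : 26 * κ' * r * ‖v‖ ≤ ‖f.1 - g.1‖ * ‖v‖ :=
      mul_le_mul_of_nonneg_right h6 (norm_nonneg _)
    have h9 : 26 * r * ‖v‖ ≤ ‖(f.1 - g.1) v‖ := by
      have h10 : κ' * (26 * r * ‖v‖) ≤ κ' * ‖(f.1 - g.1) v‖ := by linarith
      exact le_of_mul_le_mul_left h10 (by linarith)
    have h11 : (f.1 - g.1) v = (f.1 - B) v - (g.1 - B) v := by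
      simp only [sub_apply]
      abel
    have h12 : ‖(f.1 - g.1) v‖ ≤ ‖(f.1 - B) v‖ + ‖(g.1 - B) v‖ := by
      rw [h11]; exact norm_sub_le _ _
    have h13 : ‖(g.1 - B) v‖ ≤ r * ‖v‖ := by
      refine ((g.1 - B).le_opNorm v).trans (mul_le_mul_of_nonneg_right ?_ (norm_nonneg _))
      rw [← dist_eq_norm]
      exact hgd
    linarith
  have hlin := conf_lin hconf'
  have hmain := hC₀ Q F₁ F₂ B r k hr (fun f hf => by
      rw [← dist_eq_norm]
      exact (Finset.mem_filter.1 hf).2) hout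
    (lin_sub hlin hQP (Finset.filter_subset _ _)) (lin_sub hlin hQP (Finset.filter_subset _ _))
    hkF₁ hkF₂
  have hF₁m : (F₁.card : ℝ) ≤ m := by
    rw [hm]; exact_mod_cast Finset.card_le_card (Finset.filter_subset _ _)
  have hF₂m : (F₂.card : ℝ) ≤ m := by
    rw [hm]; exact_mod_cast Finset.card_le_card (Finset.filter_subset _ _)
  have hkpos : 0 ≤ c * I / n := by positivity
  rcases hmain with h | h
  · have h1 : (Q.card : ℝ) * (k : ℝ) ^ 3 ≤ C₀ * (F₁.card * F₂.card) := by exact_mod_cast h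
    have h2 : c * n * (c * I / n) ^ 3 ≤ (Q.card : ℝ) * (k : ℝ) ^ 3 := by
      refine mul_le_mul hcard (pow_le_pow_left₀ hkpos hk1 3) (by positivity) (by positivity)
    have h3 : (C₀ : ℝ) * (F₁.card * F₂.card) ≤ C₀ * (m * m) := by
      refine mul_le_mul_of_nonneg_left ?_ (Nat.cast_nonneg _)
      exact mul_le_mul hF₁m hF₂m (by positivity) (by positivity)
    have h4 : c ^ 4 * I ^ 3 ≤ C₀ * (n * m) ^ 2 := by
      have h5 : c * n * (c * I / n) ^ 3 * n ^ 2 = c ^ 4 * I ^ 3 := by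
        field_simp
      calc c ^ 4 * I ^ 3 = c * n * (c * I / n) ^ 3 * n ^ 2 := h5.symm
        _ ≤ C₀ * (m * m) * n ^ 2 := by
            refine mul_le_mul_of_nonneg_right (h2.trans (h1.trans h3)) (by positivity)
        _ = C₀ * (n * m) ^ 2 := by ring
    have h6 : M * (n * m) ^ (2 / 3 : ℝ) < I := by
      have : 0 ≤ M * (n + m) := by positivity
      nlinarith
    have h7 : M ^ 3 * (n * m) ^ 2 < I ^ 3 := by
      have h8 : (M * (n * m) ^ (2 / 3 : ℝ)) ^ 3 < I ^ 3 :=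
        pow_lt_pow_left₀ h6 (by positivity) (by norm_num)
      have h9 : ((n * m) ^ (2 / 3 : ℝ)) ^ 3 = (n * m) ^ 2 := by
        rw [← Real.rpow_natCast, ← Real.rpow_mul (by positivity), ← Real.rpow_natCast]
        norm_num
      rw [mul_pow, h9] at h8
      exact h8
    have h10 : C₀ ≤ M * c ^ 4 := by
      have : C₀ / c ^ 4 ≤ M := by linarith
      rwa [div_le_iff₀ (by positivity)] at this
    have h11 : M ≤ M ^ 3 := by
      have : 1 ≤ M := by linarith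
      nlinarith [sq_nonneg M, mul_self_nonneg (M - 1)]
    have h12 : (C₀ : ℝ) * (n * m) ^ 2 ≤ M * c ^ 4 * (n * m) ^ 2 :=
      mul_le_mul_of_nonneg_right h10 (by positivity)
    have h13 : M * c ^ 4 * (n * m) ^ 2 ≤ M ^ 3 * c ^ 4 * (n * m) ^ 2 := by
      have : M * (c ^ 4 * (n * m) ^ 2) ≤ M ^ 3 * (c ^ 4 * (n * m) ^ 2) :=
        mul_le_mul_of_nonneg_right h11 (by positivity)
      linarith
    have h14 : c ^ 4 * (M ^ 3 * (n * m) ^ 2) < c ^ 4 * I ^ 3 :=
      mul_lt_mul_of_pos_left h7 (by positivity)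
    linarith
  · have h1 : (Q.card : ℝ) * (k : ℝ) ≤ 2 * F₁.card := by exact_mod_cast h
    have h2 : c * n * (c * I / n) ≤ (Q.card : ℝ) * (k : ℝ) :=
      mul_le_mul hcard hk1 (by positivity) (by positivity)
    have h3 : c * n * (c * I / n) = c ^ 2 * I := by field_simp
    have h4 : M * m < I := by
      have : 0 ≤ M * ((n * m) ^ (2 / 3 : ℝ) + n) := by positivity
      nlinarith
    have h5 : c ^ 2 * (M * m) < c ^ 2 * I := mul_lt_mul_of_pos_left h4 (by positivity)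
    have h6 : 2 ≤ M * c ^ 2 := by
      have : 2 / c ^ 2 ≤ M := by linarith
      rwa [div_le_iff₀ (by positivity)] at this
    have h7 : 2 * m ≤ M * c ^ 2 * m := mul_le_mul_of_nonneg_right h6 hm0.le
    linarith

end Pool.Agent.Helper57.ZF
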