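import Pool.Agent.Helper57.ZF.CL
import Pool.Agent.Helper57.ZF.MainI

/-!
Project ZF: group count.
-/

set_option autoImplicit false

namespace Pool.Agent.Helper57.ZF

open scoped Classical in
theorem BLG_own (hCNT : G_CNT) (hLOC : G_LOC) (hLOCY : G_LOCY) (hLOCX : G_LOCX) : G_BLG := by
  intro E _ _ S F₁ F₂ k w b ρ hF₁ hF₂ hl₁ hl₂ hk₁ hk₂ hkS hb hS
  obtain ⟨n, hn⟩ : ∃ n : ℕ, n = (k + 1) / 2 := ⟨_, rfl⟩
  -- choose the subset
  have hT : ∃ T ⊆ S, T.card = n ∧ (b < 0 ∨ (0 < b ∧ ∀ p ∈ T, dist p w ≤ dist p.2 w.2) ∨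
      (0 < b ∧ ∀ p ∈ T, dist p w ≤ dist p.1 w.1)) := by
    rcases hb with hb | hb
    · obtain ⟨T, hTS, hTc⟩ := Finset.exists_subset_card_eq (show n ≤ S.card by omega)
      exact ⟨T, hTS, hTc, Or.inl hb⟩
    · have hsplit : (S.filter (fun p => dist p w ≤ dist p.2 w.2)).card +
          (S.filter (fun p => ¬ dist p w ≤ dist p.2 w.2)).card = S.card :=
        Finset.card_filter_add_card_filter_not _
      by_cases h1 : n ≤ (S.filter (fun p => dist p w ≤ dist p.2 w.2)).card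
      · obtain ⟨T, hTS, hTc⟩ := Finset.exists_subset_card_eq h1
        exact ⟨T, hTS.trans (Finset.filter_subset _ _), hTc, Or.inr (Or.inl ⟨hb, fun p hp =>
          (Finset.mem_filter.1 (hTS hp)).2⟩)⟩
      · have h2 : n ≤ (S.filter (fun p => ¬ dist p w ≤ dist p.2 w.2)).card := by omega
        obtain ⟨T, hTS, hTc⟩ := Finset.exists_subset_card_eq h2
        refine ⟨T, hTS.trans (Finset.filter_subset _ _), hTc, Or.inr (Or.inr ⟨hb, fun p hp => ?_⟩)⟩
        have h3 := (Finset.mem_filter.1 (hTS hp)).2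
        rw [Prod.dist_eq] at h3 ⊢
        rw [max_le_iff, not_and_or] at h3
        rw [max_le_iff]
        rcases h3 with h3 | h3
        · push Not at h3
          exact ⟨le_rfl, h3.le⟩
        · exact absurd le_rfl h3
  obtain ⟨T, hTS, hTc, hT⟩ := hT
  have hTk : T.card ≤ k ∨ k = 0 := by omega
  refine ⟨F₁.filter (fun f => ∃ p ∈ T, On p f), Finset.filter_subset _ _,
    F₂.filter (fun f => ∃ p ∈ T, Ov p f), Finset.filter_subset _ _, ?_, ?_, ?_⟩
  · rcases hTk with hTk | hk0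
    · have := hCNT _ _ T F₁ On k (fun p hp => hk₁ p (hTS hp)) hTk
        (lin_sub hl₁ hTS (Finset.Subset.refl _))
      rw [cnt_eq] at this
      have h2 : k ≤ 2 * T.card := by omega
      have h3 : k * k ≤ 2 * T.card * k := Nat.mul_le_mul_right _ h2
      have h4 : 2 * T.card * k = 2 * (T.card * k) := by ring
      omega
    · subst hk0; simp
  · rcases hTk with hTk | hk0
    · have := hCNT _ _ T F₂ Ov k (fun p hp => hk₂ p (hTS hp)) hTk
        (lin_sub hl₂ hTS (Finset.Subset.refl _))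
      rw [cnt_eq] at this
      have h2 : k ≤ 2 * T.card := by omega
      have h3 : k * k ≤ 2 * T.card * k := Nat.mul_le_mul_right _ h2
      have h4 : 2 * T.card * k = 2 * (T.card * k) := by ring
      omega
    · subst hk0; simp
  · intro f hf g hg z hzf hzg
    rw [Finset.mem_filter] at hf hg
    obtain ⟨hfF, p, hpT, hpf⟩ := hf
    obtain ⟨hgF, q, hqT, hqg⟩ := hg
    have hp := hS p (hTS hpT)
    have hq := hS q (hTS hqT)
    refine ⟨?_, hLOC E f g w p q z ρ (hF₁ f hfF) (hF₂ g hgF) hp.1 hq.1 hpf hzf hqg hzg⟩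
    rcases hT with hT | ⟨hb0, hT⟩ | ⟨hb0, hT⟩
    · exact lt_of_lt_of_le hT dist_nonneg
    · exact hLOCY E f w p z b (hF₁ f hfF) hb0 hp.2 (hT p hpT) hpf hzf
    · exact hLOCX E g w q z b (hF₂ g hgF) hb0 hq.2 (hT q hqT) hqg hzg

end Pool.Agent.Helper57.ZF
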