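import Pool.Agent.Helper57.ZF.Goals
import Pool.Agent.Helper57.ZF.CL

/-!
Project ZF: the cut lemma, part A (basic facts on concentration).
-/

set_option autoImplicit false

namespace Pool.Agent.Helper57.ZF

section

variable {α β X : Type} [MetricSpace X]

/-- Number of members of `F` incident to `p` with slope within `r` of `A`. -/
noncomputable def sh (F : Finset β) (R : α → β → Prop) (s : β → X) (p : α) (A : X) (r : ℝ) : ℝ :=
  (cnt F (fun f => R p f ∧ dist (s f) A ≤ r) : ℝ)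

/-- The degree of `p`. -/
noncomputable def dg (F : Finset β) (R : α → β → Prop) (p : α) : ℝ := (cnt F (R p) : ℝ)

theorem dg_nonneg (F : Finset β) (R : α → β → Prop) (p : α) : 0 ≤ dg F R p := Nat.cast_nonneg _

theorem sh_mono (F : Finset β) (R : α → β → Prop) (s : β → X) (p : α) {A B : X} {r r' : ℝ}
    (h : ∀ f ∈ F, R p f → dist (s f) A ≤ r → dist (s f) B ≤ r') :
    sh F R s p A r ≤ sh F R s p B r' := by
  unfold sh
  exact Nat.cast_le.2 <| cnt_mono (Finset.Subset.refl F) (fun f hf h' => ⟨h'.1, h f hf h'.1 h'.2⟩)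

theorem sh_le_dg (F : Finset β) (R : α → β → Prop) (s : β → X) (p : α) (A : X) (r : ℝ) :
    sh F R s p A r ≤ dg F R p := by
  unfold sh dg
  exact Nat.cast_le.2 <| cnt_mono (Finset.Subset.refl F) (fun f _ h' => h'.1)

theorem cnt_add_compl (F : Finset β) (q q' : β → Prop) :
    cnt F (fun f => q f ∧ q' f) + cnt F (fun f => q f ∧ ¬ q' f) = cnt F q := by
  classical
  rw [cnt_eq, cnt_eq, cnt_eq, ← Finset.filter_filter, ← Finset.filter_filter]
  exact Finset.card_filter_add_card_filter_not _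

theorem sh_add (F : Finset β) (R : α → β → Prop) (s : β → X) (p : α) (A : X) (r : ℝ) :
    sh F R s p A r + (cnt F (fun f => R p f ∧ r < dist (s f) A) : ℝ) = dg F R p := by
  unfold sh dg
  have := cnt_add_compl F (R p) (fun f => dist (s f) A ≤ r)
  simp only [not_le] at this
  exact_mod_cast this

theorem exists_common (F : Finset β) (R : α → β → Prop) (s : β → X) (p : α) {A B : X} {r r' η : ℝ}
    (hη : η < 1 / 2) (hd : 0 < dg F R p) (h1 : (1 - η) * dg F R p ≤ sh F R s p A r)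
    (h2 : (1 - η) * dg F R p ≤ sh F R s p B r') :
    ∃ f ∈ F, R p f ∧ dist (s f) A ≤ r ∧ dist (s f) B ≤ r' := by
  by_contra hcon
  push Not at hcon
  have h3 : sh F R s p A r ≤ (cnt F (fun f => R p f ∧ r' < dist (s f) B) : ℝ) := by
    unfold sh
    exact Nat.cast_le.2 <| cnt_mono (Finset.Subset.refl F)
      (fun f hf h' => ⟨h'.1, hcon f hf h'.1 h'.2⟩)
  have h4 := sh_add F R s p B r'
  nlinarith

open scoped Classical in
/-- The set of distances. -/
noncomputable def dset (F : Finset β) (s : β → X) : Finset ℝ :=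
  (F ×ˢ F).image (fun fg => dist (s fg.1) (s fg.2))

open scoped Classical in
theorem step (F : Finset β) (s : β → X) (A : X) (hA : A ∈ F.image s) (r : ℝ)
    (h : ∃ f ∈ F, dist (s f) A ≤ r) :
    ∃ d ∈ dset F s, d ≤ r ∧ ∀ f ∈ F, dist (s f) A ≤ r → dist (s f) A ≤ d := by
  obtain ⟨g, hg, rfl⟩ := Finset.mem_image.1 hA
  obtain ⟨f₀, hf₀, hf₀r⟩ := h
  obtain ⟨f₁, hf₁, hmax⟩ := Finset.exists_max_image (F.filter (fun f => dist (s f) (s g) ≤ r))
    (fun f => dist (s f) (s g)) ⟨f₀, Finset.mem_filter.2 ⟨hf₀, hf₀r⟩⟩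
  rw [Finset.mem_filter] at hf₁
  refine ⟨dist (s f₁) (s g), ?_, hf₁.2, ?_⟩
  · unfold dset
    rw [Finset.mem_image]
    exact ⟨(f₁, g), Finset.mem_product.2 ⟨hf₁.1, hg⟩, rfl⟩
  · intro f hf hfr
    exact hmax f (Finset.mem_filter.2 ⟨hf, hfr⟩)

theorem dset_nonneg (F : Finset β) (s : β → X) {d : ℝ} (hd : d ∈ dset F s) : 0 ≤ d := by
  classical
  unfold dset at hd
  rw [Finset.mem_image] at hd
  obtain ⟨fg, -, rfl⟩ := hd
  exact dist_nonneg

open scoped Classical in
/-- Everything is within the maximal distance. -/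
theorem exists_all (F : Finset β) (s : β → X) (A : X) (hA : A ∈ F.image s) :
    ∃ r : ℝ, ∀ f ∈ F, dist (s f) A ≤ r := by
  obtain ⟨g, hg, rfl⟩ := Finset.mem_image.1 hA
  obtain ⟨f₁, hf₁, hmax⟩ := Finset.exists_max_image F (fun f => dist (s f) (s g)) ⟨g, hg⟩
  exact ⟨_, fun f hf => hmax f hf⟩

open scoped Classical in
/-- The concentration radius of a point. -/
theorem exists_rho (hMINR : G_MINR) (F : Finset β) (R : α → β → Prop) (s : β → X) (p : α)
    {η : ℝ} (hη0 : 0 ≤ η) (hd : 1 < (1 - η) * dg F R p)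
    (hs : ∀ f ∈ F, ∀ g ∈ F, f ≠ g → R p f → R p g → s f ≠ s g) :
    ∃ (ρ : ℝ) (A : X), 0 < ρ ∧ A ∈ F.image s ∧ (1 - η) * dg F R p ≤ sh F R s p A ρ ∧
      ∀ r < ρ, ∀ B ∈ F.image s, sh F R s p B r < (1 - η) * dg F R p := by
  have key : ∀ (A : X) (r : ℝ), (1 - η) * dg F R p ≤ sh F R s p A r →
      ∃ f ∈ F, R p f ∧ dist (s f) A ≤ r := by
    intro A r h
    by_contra hcon
    push Not at hcon
    have : sh F R s p A r = 0 := by
      unfold sh
      rw [cnt_eq, Finset.filter_false_of_mem]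
      · simp
      · intro f hf h'
        exact absurd h'.2 (not_le.2 (hcon f hf h'.1))
    linarith
  have hne : F.Nonempty := by
    by_contra h
    rw [Finset.not_nonempty_iff_eq_empty] at h
    have : dg F R p = 0 := by
      unfold dg
      rw [cnt_eq, h]
      simp
    rw [this] at hd
    linarith
  obtain ⟨g, hg⟩ := hne
  obtain ⟨ρ, hρD, ⟨A, hA, hQ⟩, hmin⟩ := hMINR (dset F s)
    (fun r => ∃ A ∈ F.image s, (1 - η) * dg F R p ≤ sh F R s p A r) (by
      rintro r ⟨A, hA, hQ⟩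
      obtain ⟨f, hf, -, hfr⟩ := key A r hQ
      obtain ⟨d, hd1, hd2, hd3⟩ := step F s A hA r ⟨f, hf, hfr⟩
      exact ⟨d, hd1, hd2, A, hA, hQ.trans (sh_mono F R s p (fun f hf _ h => hd3 f hf h))⟩) (by
      obtain ⟨r, hr⟩ := exists_all F s (s g) (Finset.mem_image_of_mem _ hg)
      refine ⟨r, s g, Finset.mem_image_of_mem _ hg, ?_⟩
      have h1 : dg F R p ≤ sh F R s p (s g) r := by
        unfold dg sh
        exact Nat.cast_le.2 <| cnt_mono (Finset.Subset.refl F) (fun f hf h' => ⟨h', hr f hf⟩)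
      have h2 := dg_nonneg F R p
      nlinarith)
  have hρ0 : 0 ≤ ρ := dset_nonneg F s hρD
  refine ⟨ρ, A, ?_, hA, hQ, fun r hr B hB => ?_⟩
  · rcases hρ0.lt_or_eq with h | h
    · exact h
    · exfalso
      rw [← h] at hQ
      have h1 : 1 < sh F R s p A 0 := lt_of_lt_of_le hd hQ
      unfold sh at h1
      rw [cnt_eq] at h1
      have h2 : 1 < (F.filter (fun f => R p f ∧ dist (s f) A ≤ 0)).card := by exact_mod_cast h1
      obtain ⟨f, hf, f', hf', hne⟩ := Finset.one_lt_card.1 h2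
      rw [Finset.mem_filter] at hf hf'
      refine hs f hf.1 f' hf'.1 hne hf.2.1 hf'.2.1 ?_
      have e1 : s f = A := dist_le_zero.1 hf.2.2
      have e2 : s f' = A := dist_le_zero.1 hf'.2.2
      rw [e1, e2]
  · by_contra hcon
    push Not at hcon
    exact hmin r hr ⟨B, hB, hcon⟩

end

open scoped Classical in
/-- The pigeonhole step that produces a cut. -/
theorem wcut {X : Type} [MetricSpace X] (hNETP : G_NETP) (hD : Dbl X) (K ε₁ : ℝ) (hK : 1 ≤ K)
    (hε₁ : 0 < ε₁) :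
    ∃ N : ℕ, 0 < N ∧ ∀ (α β : Type) (P W : Finset α) (F : Finset β) (R : α → β → Prop) (s : β → X)
      (A : X) (ρ η τ k c : ℝ), W ⊆ P → F.Nonempty → 0 < ρ → 0 ≤ k → 0 ≤ η → η ≤ 1 / 2 →
      τ * P.card ≤ W.card → P.Nonempty → k * P.card = inc P F R →
      c ≤ τ / N → c ≤ η ^ 2 / N → 
      (∀ p ∈ W, η * k ≤ dg F R p ∧ η * dg F R p ≤ sh F R s p A ρ ∧
        ∀ r < ε₁ * ρ, ∀ B ∈ F.image s, sh F R s p B r < (1 - η) * dg F R p) →
      HasCut P F R s c K := by
  obtain ⟨N, hN, h⟩ := hNETP X hD (2 * K / ε₁)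
  refine ⟨N, hN, ?_⟩
  intro α β P W F R s A ρ η τ k c hWP hF hρ hk hη hη2 hτ hP hkI hc1 hc2 hW
  have hNR : (0 : ℝ) < N := by exact_mod_cast hN
  have hN1 : (1 : ℝ) ≤ N := by exact_mod_cast hN
  have hPc : (0 : ℝ) < P.card := by exact_mod_cast hP.card_pos
  have hr : 0 < ε₁ * ρ / (2 * K) := by positivity
  have hΛr : 2 * K / ε₁ * (ε₁ * ρ / (2 * K)) = ρ := by
    field_simp
  obtain ⟨B, hB, hBW⟩ := h α β W F R s A (ε₁ * ρ / (2 * K)) (η ^ 2 * k) hr hF (by
    intro p hp
    obtain ⟨h1, h2, -⟩ := hW p hp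
    rw [hΛr]
    have : η * (η * k) ≤ η * dg F R p := mul_le_mul_of_nonneg_left h1 hη
    unfold sh at h2
    linarith [this, h2])
  refine ⟨B, ε₁ * ρ / (2 * K), hr, ?_⟩
  have hmono : (cnt W (fun p => η ^ 2 * k ≤ N * cnt F (fun f => R p f ∧
      dist (s f) B ≤ ε₁ * ρ / (2 * K))) : ℝ) ≤ cnt P (fun p =>
    c * inc P F R ≤ P.card * cnt F (fun f => R p f ∧ dist (s f) B ≤ ε₁ * ρ / (2 * K)) ∧
    c * inc P F R ≤ P.card * cnt F (fun f => R p f ∧ K * (ε₁ * ρ / (2 * K)) < dist (s f) B)) := by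
    have : cnt W (fun p => η ^ 2 * k ≤ N * cnt F (fun f => R p f ∧
      dist (s f) B ≤ ε₁ * ρ / (2 * K))) ≤ cnt P (fun p =>
    c * inc P F R ≤ P.card * cnt F (fun f => R p f ∧ dist (s f) B ≤ ε₁ * ρ / (2 * K)) ∧
    c * inc P F R ≤ P.card * cnt F (fun f => R p f ∧ K * (ε₁ * ρ / (2 * K)) < dist (s f) B)) := by
      refine cnt_mono hWP ?_
      intro p hp h'
      obtain ⟨h1, h2, h3⟩ := hW p hp
      have hck : c * inc P F R ≤ P.card * (η ^ 2 / N * k) := by
        rw [← hkI]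
        have : c * (k * P.card) ≤ η ^ 2 / N * (k * P.card) :=
          mul_le_mul_of_nonneg_right hc2 (by positivity)
        linarith [this]
      refine ⟨hck.trans (mul_le_mul_of_nonneg_left ?_ hPc.le),
        hck.trans (mul_le_mul_of_nonneg_left ?_ hPc.le)⟩
      · rw [div_mul_eq_mul_div, div_le_iff₀ hNR]
        linarith [h']
      · have hlt : K * (ε₁ * ρ / (2 * K)) < ε₁ * ρ := by
          have : K * (ε₁ * ρ / (2 * K)) = ε₁ * ρ / 2 := by field_simp
          rw [this]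
          have : 0 < ε₁ * ρ := by positivity
          linarith
        have h4 := h3 _ hlt B hB
        have h5 := sh_add F R s p B (K * (ε₁ * ρ / (2 * K)))
        have h6 : η * dg F R p ≤ (cnt F (fun f => R p f ∧
            K * (ε₁ * ρ / (2 * K)) < dist (s f) B) : ℝ) := by linarith
        have h7 : η * (η * k) ≤ η * dg F R p := mul_le_mul_of_nonneg_left h1 hη
        have h8 : η ^ 2 / N * k ≤ η ^ 2 * k := by
          refine mul_le_mul_of_nonneg_right ?_ hk
          exact div_le_self (by positivity) hN1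
        linarith
    exact_mod_cast this
  have h9 : c * P.card ≤ τ / N * P.card := mul_le_mul_of_nonneg_right hc1 hPc.le
  have h10 : τ / N * P.card ≤ (cnt W (fun p => η ^ 2 * k ≤ N * cnt F (fun f => R p f ∧
      dist (s f) B ≤ ε₁ * ρ / (2 * K))) : ℝ) := by
    rw [div_mul_eq_mul_div, div_le_iff₀ hNR]
    linarith
  linarith

end Pool.Agent.Helper57.ZF
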