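import Pool.Agent.Helper57.ZF.CutA

/-!
Project ZF: the cut lemma, assembly.
-/

set_option autoImplicit false

namespace Pool.Agent.Helper57.ZF

theorem inc_cast {α β : Type} (P : Finset α) (F : Finset β) (R : α → β → Prop) :
    (inc P F R : ℝ) = ∑ p ∈ P, dg F R p := by
  unfold inc dg
  push_cast
  rfl

open scoped Classical in
theorem dg_split {α β : Type} {F Fi : Finset β} (h : Fi ⊆ F) (R : α → β → Prop) (p : α) :
    dg F R p = dg Fi R p + dg (F \ Fi) R p := by
  unfold dg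
  rw [cnt_eq, cnt_eq, cnt_eq]
  have : F.filter (R p) = Fi.filter (R p) ∪ (F \ Fi).filter (R p) := by
    rw [← Finset.filter_union, Finset.union_sdiff_of_subset h]
  rw [this, Finset.card_union_of_disjoint]
  · push_cast; ring
  · exact Finset.disjoint_filter_filter Finset.disjoint_sdiff

open scoped Classical in
theorem final_sum {α β : Type} (P S T : Finset α) (F Fi : Finset β) (R : α → β → Prop)
    (η x y z : ℝ) (hη : 0 ≤ η) (hP : P.Nonempty) (hS : S ⊆ P) (hFi : Fi ⊆ F)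
    (h1 : ∀ p ∈ S, dg (F \ Fi) R p ≤ η * dg F R p)
    (h2 : ∀ p ∈ P, p ∉ S → p ∉ T → dg Fi R p ≤ η * dg F R p + η * (inc P F R / P.card))
    (h3 : ∑ p ∈ T, dg F R p ≤ x) (h4 : (inc S Fi R : ℝ) ≤ y)
    (h5 : (inc (P \ S) (F \ Fi) R : ℝ) ≤ z) :
    (inc P F R : ℝ) ≤ y + z + 2 * η * inc P F R + x := by
  have hPc : (0 : ℝ) < P.card := by exact_mod_cast hP.card_pos
  have e0 : (inc P F R : ℝ) = ∑ p ∈ S, dg F R p + ∑ p ∈ P \ S, dg F R p := by
    rw [inc_cast, add_comm, Finset.sum_sdiff hS]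
  have e1 : ∑ p ∈ S, dg F R p = (inc S Fi R : ℝ) + ∑ p ∈ S, dg (F \ Fi) R p := by
    rw [inc_cast, ← Finset.sum_add_distrib]
    exact Finset.sum_congr rfl (fun p _ => dg_split hFi R p)
  have e2 : ∑ p ∈ P \ S, dg F R p = ∑ p ∈ P \ S, dg Fi R p + (inc (P \ S) (F \ Fi) R : ℝ) := by
    rw [inc_cast, ← Finset.sum_add_distrib]
    exact Finset.sum_congr rfl (fun p _ => dg_split hFi R p)
  have e3 : ∑ p ∈ S, dg (F \ Fi) R p ≤ η * ∑ p ∈ S, dg F R p := by
    rw [Finset.mul_sum]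
    exact Finset.sum_le_sum h1
  have e4 : ∑ p ∈ P \ S, dg Fi R p ≤ ∑ p ∈ P \ S, (η * dg F R p + η * (inc P F R / P.card)) +
      ∑ p ∈ T, dg F R p := by
    have hle : ∀ p ∈ P \ S, dg Fi R p ≤ (η * dg F R p + η * (inc P F R / P.card)) +
        (if p ∈ T then dg F R p else 0) := by
      intro p hp
      rw [Finset.mem_sdiff] at hp
      by_cases hT : p ∈ T
      · rw [if_pos hT]
        have a1 := dg_split hFi R p
        have a2 := dg_nonneg (F \ Fi) R p
        have a3 : 0 ≤ η * dg F R p := mul_nonneg hη (dg_nonneg _ _ _)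
        have a4 : 0 ≤ η * ((inc P F R : ℝ) / P.card) := by positivity
        linarith
      · rw [if_neg hT, add_zero]
        exact h2 p hp.1 hp.2 hT
    refine (Finset.sum_le_sum hle).trans ?_
    rw [Finset.sum_add_distrib]
    refine add_le_add le_rfl ?_
    rw [← Finset.sum_filter]
    refine Finset.sum_le_sum_of_subset_of_nonneg ?_ (fun p _ _ => dg_nonneg _ _ _)
    intro p hp
    exact (Finset.mem_filter.1 hp).2
  have e5 : ∑ p ∈ P \ S, (η * dg F R p + η * ((inc P F R : ℝ) / P.card)) ≤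
      η * ∑ p ∈ P \ S, dg F R p + η * inc P F R := by
    rw [Finset.sum_add_distrib, ← Finset.mul_sum, Finset.sum_const, nsmul_eq_mul]
    refine add_le_add le_rfl ?_
    have c1 : ((P \ S).card : ℝ) ≤ P.card := by
      exact_mod_cast Finset.card_le_card Finset.sdiff_subset
    calc ((P \ S).card : ℝ) * (η * ((inc P F R : ℝ) / P.card))
        ≤ P.card * (η * ((inc P F R : ℝ) / P.card)) :=
          mul_le_mul_of_nonneg_right c1 (by positivity)
      _ = η * inc P F R := by field_simp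
  have e6 : η * ∑ p ∈ S, dg F R p + η * ∑ p ∈ P \ S, dg F R p = η * inc P F R := by
    rw [← mul_add, ← e0]
  linarith

open scoped Classical in
/-- The cut lemma from its parts. -/
theorem CUT_of (hMINR : G_MINR) (hNETP : G_NETP) (hANN : G_ANN) (hHOLD : G_HOLD) : G_CUT := by
  intro X _ hD K hK
  obtain ⟨N₁, hN₁, hnet⟩ := hNETP X hD 16
  have hN₁R : (1 : ℝ) ≤ N₁ := by exact_mod_cast hN₁
  obtain ⟨η, hη⟩ : ∃ η : ℝ, η = 1 / (120 * N₁) := ⟨_, rfl⟩
  have hη0 : 0 < η := by rw [hη]; positivity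
  have hη1 : η ≤ 1 / 120 := by
    rw [hη]
    refine one_div_le_one_div_of_le (by norm_num) (by linarith)
  obtain ⟨L, hL⟩ : ∃ L : ℕ, 1 / η ^ 2 ≤ L := exists_nat_ge _
  have hLR : (4 : ℝ) ≤ L := by
    refine le_trans ?_ hL
    rw [le_div_iff₀ (by positivity)]
    nlinarith
  have hL0 : 0 < L := by
    have : (0 : ℝ) < L := by linarith
    exact_mod_cast this
  obtain ⟨τ, hτ⟩ : ∃ τ : ℝ, τ = 1 / L := ⟨_, rfl⟩
  have hτ0 : 0 < τ := by rw [hτ]; positivity
  have hτ4 : τ ≤ 1 / 4 := by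
    rw [hτ]
    exact one_div_le_one_div_of_le (by norm_num) hLR
  have hτη : τ ^ (2 / 3 : ℝ) ≤ η := by
    have h1 : τ ≤ η ^ 2 := by
      rw [hτ, div_le_iff₀ (by linarith)]
      rw [div_le_iff₀ (by positivity)] at hL
      linarith
    have h2 : τ ^ (2 / 3 : ℝ) ≤ (η ^ 2) ^ (2 / 3 : ℝ) :=
      Real.rpow_le_rpow hτ0.le h1 (by norm_num)
    refine h2.trans ?_
    rw [← Real.rpow_natCast, ← Real.rpow_mul hη0.le]
    calc η ^ (((2 : ℕ) : ℝ) * (2 / 3)) ≤ η ^ (1 : ℝ) := by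
          refine Real.rpow_le_rpow_of_exponent_ge hη0 (by linarith) (by norm_num)
      _ = η := Real.rpow_one η
  obtain ⟨ε₁, hε₁⟩ : ∃ ε₁ : ℝ, ε₁ = 1 / (16 * L) := ⟨_, rfl⟩
  have hε₁0 : 0 < ε₁ := by rw [hε₁]; positivity
  have hLε : (L : ℝ) * ε₁ = 1 / 16 := by rw [hε₁]; field_simp
  have hε₁4 : ε₁ ≤ 1 / 64 := by nlinarith
  obtain ⟨N₂, hN₂, hcut⟩ := wcut hNETP hD K ε₁ hK hε₁0
  have hN₂R : (1 : ℝ) ≤ N₂ := by exact_mod_cast hN₂
  obtain ⟨c, hc⟩ : ∃ c : ℝ, c = η ^ 2 * τ / (2 * N₂) := ⟨_, rfl⟩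
  have hc0 : 0 < c := by rw [hc]; positivity
  have hc1 : c ≤ τ / N₂ := by
    rw [hc, div_le_div_iff₀ (by positivity) (by positivity)]
    have : η ^ 2 ≤ 2 := by nlinarith
    have h0 : 0 ≤ τ * N₂ := by positivity
    nlinarith [mul_le_mul_of_nonneg_right this h0]
  have hc2 : c ≤ η ^ 2 / N₂ := by
    rw [hc, div_le_div_iff₀ (by positivity) (by positivity)]
    have : τ ≤ 2 := by linarith
    have h0 : 0 ≤ η ^ 2 * N₂ := by positivity
    nlinarith [mul_le_mul_of_nonneg_right this h0]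
  have hc3 : c ≤ η / 4 := by
    refine hc2.trans ?_
    rw [div_le_iff₀ (by linarith)]
    nlinarith
  refine ⟨η / 2, c, by linarith, hc0, ?_⟩
  intro α β P F R s hP hExt hs hPc
  by_contra hno
  obtain ⟨n, hn⟩ : ∃ n : ℝ, n = (P.card : ℝ) := ⟨_, rfl⟩
  obtain ⟨I, hI⟩ : ∃ I : ℝ, I = (inc P F R : ℝ) := ⟨_, rfl⟩
  have hn1 : 1 ≤ n := by rw [hn]; exact_mod_cast hP.card_pos
  have hnI : n ≤ c * I := by rw [hn, hI]; exact hPc
  have hI0 : 0 < I := by
    by_contra h
    push Not at h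
    nlinarith
  have hFne : F.Nonempty := by
    by_contra h
    rw [Finset.not_nonempty_iff_eq_empty] at h
    have : I = 0 := by
      rw [hI, inc_cast]
      refine Finset.sum_eq_zero (fun p _ => ?_)
      unfold dg
      rw [cnt_eq, h]
      simp
    linarith
  have hFc : (0 : ℝ) < F.card := by exact_mod_cast hFne.card_pos
  -- consequences of extremality
  have hext1 : ∀ A ⊆ P, (∑ p ∈ A, dg F R p) ≤ I * ((A.card / n) ^ (2 / 3 : ℝ) + η / 2) := by
    intro A hA
    have := hExt A hA F (Finset.Subset.refl F)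
    rw [← hI, ← hn, div_self hFc.ne', mul_one, inc_cast] at this
    exact this
  have hext2 : ∀ A ⊆ P, (A.card : ℝ) ≤ τ * n → (∑ p ∈ A, dg F R p) ≤ I * (3 / 2 * η) := by
    intro A hA hAc
    refine (hext1 A hA).trans (mul_le_mul_of_nonneg_left ?_ hI0.le)
    have h1 : (A.card : ℝ) / n ≤ τ := by rw [div_le_iff₀ (by linarith)]; exact hAc
    have h2 : ((A.card : ℝ) / n) ^ (2 / 3 : ℝ) ≤ τ ^ (2 / 3 : ℝ) :=
      Real.rpow_le_rpow (by positivity) h1 (by norm_num)
    linarith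
  have hIsum : I = ∑ p ∈ P, dg F R p := by rw [hI, inc_cast]
  -- rich points
  set P₀ : Finset α := P.filter (fun p => η * I ≤ n * dg F R p) with hP₀
  have hP₀P : P₀ ⊆ P := Finset.filter_subset _ _
  have hpoor : ∀ p ∈ P, p ∉ P₀ → dg F R p ≤ η * (I / n) := by
    intro p hp hp'
    rw [hP₀, Finset.mem_filter, not_and, not_le] at hp'
    have := hp' hp
    rw [← mul_div_assoc, le_div_iff₀ (by linarith)]
    linarith
  have hP₀sum : ∑ p ∈ P \ P₀, dg F R p ≤ η * I := by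
    calc ∑ p ∈ P \ P₀, dg F R p ≤ ∑ p ∈ P \ P₀, η * (I / n) := by
          refine Finset.sum_le_sum (fun p hp => ?_)
          rw [Finset.mem_sdiff] at hp
          exact hpoor p hp.1 hp.2
      _ = ((P \ P₀).card : ℝ) * (η * (I / n)) := by rw [Finset.sum_const, nsmul_eq_mul]
      _ ≤ n * (η * (I / n)) := by
          refine mul_le_mul_of_nonneg_right ?_ (by positivity)
          rw [hn]
          exact_mod_cast Finset.card_le_card Finset.sdiff_subset
      _ = η * I := by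
          have : n ≠ 0 := by linarith
          field_simp
  have hP₀card : n / 2 ≤ P₀.card := by
    by_contra hlt
    push Not at hlt
    have h1 := hext1 P₀ hP₀P
    have h2 : ((P₀.card : ℝ) / n) ^ (2 / 3 : ℝ) ≤ 7 / 10 := by
      have a1 : (P₀.card : ℝ) / n ≤ 1 / 2 := by
        rw [div_le_iff₀ (by linarith)]; linarith
      have a2 : ((P₀.card : ℝ) / n) ^ (2 / 3 : ℝ) ≤ (1 / 2 : ℝ) ^ (2 / 3 : ℝ) :=
        Real.rpow_le_rpow (by positivity) a1 (by norm_num)
      refine a2.trans ?_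
      have a3 : ((1 / 2 : ℝ) ^ (2 / 3 : ℝ)) ^ (3 : ℕ) = 1 / 4 := by
        rw [← Real.rpow_natCast, ← Real.rpow_mul (by norm_num)]
        norm_num
      by_contra hh
      push Not at hh
      have a4 : (7 / 10 : ℝ) ^ 3 < ((1 / 2 : ℝ) ^ (2 / 3 : ℝ)) ^ (3 : ℕ) :=
        pow_lt_pow_left₀ hh (by norm_num) (by norm_num)
      rw [a3] at a4
      norm_num at a4
    have h3 : I = ∑ p ∈ P \ P₀, dg F R p + ∑ p ∈ P₀, dg F R p := by
      rw [hIsum, Finset.sum_sdiff hP₀P]
    have h4 : I * (((P₀.card : ℝ) / n) ^ (2 / 3 : ℝ) + η / 2) ≤ I * (7 / 10 + η / 2) :=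
      mul_le_mul_of_nonneg_left (by linarith) hI0.le
    nlinarith
  have hrich : ∀ p ∈ P₀, η * (I / n) ≤ dg F R p ∧ 1 < (1 - η) * dg F R p := by
    intro p hp
    rw [hP₀, Finset.mem_filter] at hp
    have h1 : η * (I / n) ≤ dg F R p := by
      rw [← mul_div_assoc, div_le_iff₀ (by linarith)]
      linarith [hp.2]
    refine ⟨h1, ?_⟩
    have h2 : 1 ≤ c * (I / n) := by
      rw [← mul_div_assoc, le_div_iff₀ (by linarith)]
      linarith
    have h3 : c * (I / n) ≤ η / 4 * (I / n) := mul_le_mul_of_nonneg_right hc3 (by positivity)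
    have h4 : 4 ≤ η * (I / n) := by linarith
    nlinarith
  -- concentration radii
  have hrad : ∀ p : α, ∃ (ρ : ℝ) (A : X), p ∈ P₀ → 0 < ρ ∧ A ∈ F.image s ∧
      (1 - η) * dg F R p ≤ sh F R s p A ρ ∧
      ∀ r < ρ, ∀ B ∈ F.image s, sh F R s p B r < (1 - η) * dg F R p := by
    intro p
    obtain ⟨g, hg⟩ := hFne
    by_cases hp : p ∈ P₀
    · obtain ⟨ρ, A, h⟩ := exists_rho hMINR F R s p hη0.le (hrich p hp).2
        (fun f hf g hg hne h1 h2 => hs p (hP₀P hp) f hf g hg hne h1 h2)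
      exact ⟨ρ, A, fun _ => h⟩
    · exact ⟨0, s g, fun h => absurd h hp⟩
  choose rp Ap hrp using hrad
  -- the global radius
  have hglob : ∃ ρ ∈ dset F s, (∃ A ∈ F.image s,
      n / 2 ≤ (P₀.filter (fun p => (1 - η) * dg F R p ≤ sh F R s p A ρ)).card) ∧
      ∀ r < ρ, ¬ (∃ A ∈ F.image s,
      n / 2 ≤ (P₀.filter (fun p => (1 - η) * dg F R p ≤ sh F R s p A r)).card) := by
    refine hMINR (dset F s) (fun r => ∃ A ∈ F.image s,
      n / 2 ≤ (P₀.filter (fun p => (1 - η) * dg F R p ≤ sh F R s p A r)).card) ?_ ?_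
    · rintro r ⟨A, hA, hQ⟩
      have hne : (P₀.filter (fun p => (1 - η) * dg F R p ≤ sh F R s p A r)).Nonempty := by
        rw [← Finset.card_pos]
        have : (0 : ℝ) < (P₀.filter (fun p => (1 - η) * dg F R p ≤ sh F R s p A r)).card := by
          linarith
        exact_mod_cast this
      obtain ⟨p, hp⟩ := hne
      rw [Finset.mem_filter] at hp
      obtain ⟨f, hf, -, hfr, -⟩ := exists_common F R s p (A := A) (B := A) (r := r) (r' := r)
        (η := η) (by linarith) (by nlinarith [(hrich p hp.1).2]) hp.2 hp.2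
      obtain ⟨d, hd1, hd2, hd3⟩ := step F s A hA r ⟨f, hf, hfr⟩
      refine ⟨d, hd1, hd2, A, hA, hQ.trans ?_⟩
      exact_mod_cast Finset.card_le_card (fun p hp => by
        rw [Finset.mem_filter] at hp ⊢
        exact ⟨hp.1, hp.2.trans (sh_mono F R s p (fun f hf _ h => hd3 f hf h))⟩)
    · obtain ⟨g, hg⟩ := hFne
      obtain ⟨r, hr⟩ := exists_all F s (s g) (Finset.mem_image_of_mem _ hg)
      refine ⟨r, s g, Finset.mem_image_of_mem _ hg, hP₀card.trans ?_⟩
      rw [Finset.filter_true_of_mem]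
      intro p hp
      have h1 : dg F R p ≤ sh F R s p (s g) r := by
        unfold dg sh
        exact Nat.cast_le.2 <| cnt_mono (Finset.Subset.refl F) (fun f hf h' => ⟨h', hr f hf⟩)
      have h2 := dg_nonneg F R p
      nlinarith
  obtain ⟨ρ, -, ⟨A, hA, hS₁⟩, hmin⟩ := hglob
  set S₁ : Finset α := P₀.filter (fun p => (1 - η) * dg F R p ≤ sh F R s p A ρ) with hS₁def
  have hdpos : ∀ p ∈ P₀, 0 < dg F R p := by
    intro p hp
    nlinarith [(hrich p hp).2]
  have hrpS : ∀ p ∈ S₁, rp p ≤ ρ := by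
    intro p hp
    rw [hS₁def, Finset.mem_filter] at hp
    by_contra hlt
    push Not at hlt
    have := (hrp p hp.1).2.2.2 ρ hlt A hA
    linarith [hp.2]
  have hρ0 : 0 < ρ := by
    have hne : S₁.Nonempty := by
      rw [← Finset.card_pos]
      have : (0 : ℝ) < S₁.card := by linarith
      exact_mod_cast this
    obtain ⟨p, hp⟩ := hne
    exact lt_of_lt_of_le (hrp p (Finset.mem_filter.1 hp).1).1 (hrpS p hp)
  have hk0 : 0 ≤ I / n := by positivity
  have hkI : I / n * P.card = inc P F R := by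
    rw [← hn, ← hI]
    have : n ≠ 0 := by linarith
    field_simp
  -- no cut
  have hW : ∀ (W : Finset α) (B : X), W ⊆ P₀ → (∀ p ∈ W, η * dg F R p ≤ sh F R s p B ρ) →
      (∀ p ∈ W, ε₁ * ρ ≤ rp p) → (W.card : ℝ) < τ * n := by
    intro W B hWP h1 h2
    by_contra hge
    push Not at hge
    refine hno (hcut α β P W F R s B ρ η τ (I / n) c (hWP.trans hP₀P) hFne hρ0 hk0 hη0.le
      (by linarith) (by rw [← hn]; exact hge) hP hkI hc1 hc2 ?_)
    intro p hp
    refine ⟨(hrich p (hWP hp)).1, h1 p hp, fun r hr B' hB' => ?_⟩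
    exact (hrp p (hWP hp)).2.2.2 r (lt_of_lt_of_le hr (h2 p hp)) B' hB'
  -- Case I is impossible
  have hcase1 := hW (S₁.filter (fun p => ε₁ * ρ ≤ rp p)) A
    ((Finset.filter_subset _ _).trans (Finset.filter_subset _ _)) (by
      intro p hp
      rw [Finset.mem_filter, hS₁def, Finset.mem_filter] at hp
      have := hdpos p hp.1.1
      nlinarith [hp.1.2]) (fun p hp => (Finset.mem_filter.1 hp).2)
  set Q₀ : Finset α := S₁.filter (fun p => ¬ ε₁ * ρ ≤ rp p) with hQ₀
  have hQ₀card : n / 4 ≤ Q₀.card := by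
    have : (S₁.filter (fun p => ε₁ * ρ ≤ rp p)).card + Q₀.card = S₁.card :=
      Finset.card_filter_add_card_filter_not _
    have h : ((S₁.filter (fun p => ε₁ * ρ ≤ rp p)).card : ℝ) + Q₀.card = S₁.card := by
      exact_mod_cast this
    have h4 : τ * n ≤ 1 / 4 * n := mul_le_mul_of_nonneg_right hτ4 (by linarith)
    linarith
  have hQ₀P : Q₀ ⊆ P₀ := (Finset.filter_subset _ _).trans (Finset.filter_subset _ _)
  have hcen : ∀ p ∈ Q₀, dist (Ap p) A ≤ 16 * (ρ / 8) := by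
    intro p hp
    rw [hQ₀, Finset.mem_filter, hS₁def, Finset.mem_filter] at hp
    obtain ⟨⟨hpP, hpA⟩, hpr⟩ := hp
    push Not at hpr
    obtain ⟨f, hf, -, hfA, hfAp⟩ := exists_common F R s p (A := A) (B := Ap p) (r := ρ)
      (r' := rp p) (η := η) (by linarith) (hdpos p hpP) hpA (hrp p hpP).2.2.1
    have h1 : dist (Ap p) A ≤ dist (Ap p) (s f) + dist (s f) A := dist_triangle _ _ _
    rw [dist_comm (Ap p) (s f)] at h1
    have h2 : ε₁ * ρ ≤ ρ := by nlinarith
    linarith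
  have hQ₀ne : Q₀.Nonempty := by
    rw [← Finset.card_pos]
    have : (0 : ℝ) < Q₀.card := by linarith
    exact_mod_cast this
  obtain ⟨B, hB, hBcard⟩ := hnet α α Q₀ Q₀ (fun p q => p = q) Ap A (ρ / 8) 1 (by linarith) hQ₀ne (by
    intro p hp
    have : 0 < cnt Q₀ (fun f => p = f ∧ dist (Ap f) A ≤ 16 * (ρ / 8)) := by
      rw [cnt_eq, Finset.card_pos]
      exact ⟨p, Finset.mem_filter.2 ⟨hp, rfl, hcen p hp⟩⟩
    exact_mod_cast this)
  have hBF : B ∈ F.image s := by
    obtain ⟨p, hp, rfl⟩ := Finset.mem_image.1 hB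
    exact (hrp p (hQ₀P hp)).2.1
  -- concentrated points and the annulus
  set P₁ : Finset α := P₀.filter (fun p => ¬ ε₁ * ρ ≤ rp p) with hP₁
  have hP₁P : P₁ ⊆ P₀ := Finset.filter_subset _ _
  obtain ⟨i, hiL, hann⟩ := hANN α P₁ (fun p => dist (Ap p) B) (ρ / 8) (4 * ε₁ * ρ) L
    (by positivity) hL0
  obtain ⟨ri, hri⟩ : ∃ ri : ℝ, ri = ρ / 8 + i * (4 * ε₁ * ρ) := ⟨_, rfl⟩
  have hri8 : ρ / 8 ≤ ri := by
    rw [hri]
    have : 0 ≤ (i : ℝ) * (4 * ε₁ * ρ) := by positivity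
    linarith
  have hri3 : ri ≤ 3 / 8 * ρ := by
    rw [hri]
    have h1 : (i : ℝ) ≤ L := by exact_mod_cast hiL.le
    have h2 : (i : ℝ) * (4 * ε₁ * ρ) ≤ L * (4 * ε₁ * ρ) :=
      mul_le_mul_of_nonneg_right h1 (by positivity)
    have h3 : (L : ℝ) * (4 * ε₁ * ρ) = 1 / 4 * ρ := by
      calc (L : ℝ) * (4 * ε₁ * ρ) = 4 * (L * ε₁) * ρ := by ring
        _ = 1 / 4 * ρ := by rw [hLε]; ring
    linarith
  have hri' : ρ / 8 + ((i : ℝ) + 1) * (4 * ε₁ * ρ) = ri + 4 * ε₁ * ρ := by rw [hri]; ring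
  rw [← hri, hri'] at hann
  set Ann : Finset α := P₁.filter (fun p => ri < dist (Ap p) B ∧ dist (Ap p) B ≤ ri + 4 * ε₁ * ρ)
    with hAnn
  have hAnncard : (Ann.card : ℝ) ≤ τ * n := by
    rw [cnt_eq, ← hAnn] at hann
    have h1 : (L : ℝ) * Ann.card ≤ P₁.card := by exact_mod_cast hann
    have h2 : (P₁.card : ℝ) ≤ n := by
      rw [hn]
      exact_mod_cast Finset.card_le_card (hP₁P.trans hP₀P)
    have h3 : (Ann.card : ℝ) = τ * (L * Ann.card) := by
      rw [hτ]; field_simp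
    rw [h3]
    exact mul_le_mul_of_nonneg_left (h1.trans h2) hτ0.le
  set S : Finset α := P₁.filter (fun p => dist (Ap p) B ≤ ri) with hS
  have hSP : S ⊆ P := (Finset.filter_subset _ _).trans (hP₁P.trans hP₀P)
  have hScard : 1 / (4 * N₁) * n ≤ S.card := by
    have h1 : cnt Q₀ (fun p => (1 : ℝ) ≤ N₁ * cnt Q₀ (fun f => p = f ∧ dist (Ap f) B ≤ ρ / 8)) ≤
        S.card := by
      rw [cnt_eq]
      refine Finset.card_le_card (fun p hp => ?_)
      rw [Finset.mem_filter] at hp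
      rw [hS, Finset.mem_filter, hP₁, Finset.mem_filter]
      have hp2 : 0 < cnt Q₀ (fun f => p = f ∧ dist (Ap f) B ≤ ρ / 8) := by
        by_contra h0
        have : cnt Q₀ (fun f => p = f ∧ dist (Ap f) B ≤ ρ / 8) = 0 := by omega
        rw [this] at hp
        norm_num at hp
      rw [cnt_eq, Finset.card_pos] at hp2
      obtain ⟨q, hq⟩ := hp2
      rw [Finset.mem_filter] at hq
      obtain ⟨-, rfl, hq3⟩ := hq
      have hp1 := hp.1
      rw [hQ₀, Finset.mem_filter, hS₁def, Finset.mem_filter] at hp1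
      exact ⟨⟨hp1.1.1, hp1.2⟩, hq3.trans hri8⟩
    have h2 : (cnt Q₀ (fun p => (1 : ℝ) ≤ N₁ * cnt Q₀ (fun f => p = f ∧ dist (Ap f) B ≤ ρ / 8)) : ℝ)
        ≤ S.card := by exact_mod_cast h1
    have h3 : n / 4 ≤ N₁ * S.card :=
      hQ₀card.trans (hBcard.trans (mul_le_mul_of_nonneg_left h2 (by linarith)))
    rw [div_mul_eq_mul_div, div_le_iff₀ (by positivity)]
    linarith
  have hconcS : ∀ p ∈ S, (1 - η) * dg F R p ≤ sh F R s p B (ri + ε₁ * ρ) := by
    intro p hp
    rw [hS, Finset.mem_filter, hP₁, Finset.mem_filter] at hp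
    obtain ⟨⟨hp1, hp2⟩, hp3⟩ := hp
    push Not at hp2
    refine (hrp p hp1).2.2.1.trans (sh_mono F R s p (fun f _ _ hf => ?_))
    have := dist_triangle (s f) (Ap p) B
    linarith
  have hSlt : (S.card : ℝ) ≤ n / 2 := by
    by_contra hgt
    push Not at hgt
    have hlt : ri + ε₁ * ρ < ρ := by nlinarith
    refine hmin (ri + ε₁ * ρ) hlt ⟨B, hBF, hgt.le.trans ?_⟩
    exact_mod_cast Finset.card_le_card (fun p hp => by
      rw [Finset.mem_filter]
      refine ⟨hP₁P (Finset.mem_filter.1 hp).1, hconcS p hp⟩)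
  -- inner flats
  set Fi : Finset β := F.filter (fun f => dist (s f) B ≤ ri + ε₁ * ρ) with hFi
  have hFiF : Fi ⊆ F := Finset.filter_subset _ _
  have hin : ∀ p, dg Fi R p = sh F R s p B (ri + ε₁ * ρ) := by
    intro p
    unfold dg sh
    rw [cnt_eq, cnt_eq, hFi, Finset.filter_filter]
    congr 2
    ext f
    simp only [Finset.mem_filter]
    tauto
  set Wb : Finset α := P₀.filter (fun p => ε₁ * ρ ≤ rp p ∧ η * dg F R p ≤ dg Fi R p) with hWb
  have hWbcard : (Wb.card : ℝ) < τ * n := by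
    refine hW Wb B (Finset.filter_subset _ _) ?_ (fun p hp => (Finset.mem_filter.1 hp).2.1)
    intro p hp
    have hp2 := (Finset.mem_filter.1 hp).2.2
    rw [hin] at hp2
    refine hp2.trans (sh_mono F R s p (fun f _ _ hf => ?_))
    nlinarith
  -- final count
  have hout : ∀ p ∈ S, dg (F \ Fi) R p ≤ η * dg F R p := by
    intro p hp
    have h1 := dg_split hFiF R p
    have h2 := hconcS p hp
    rw [← hin] at h2
    linarith
  have hinn : ∀ p ∈ P, p ∉ S → p ∉ Ann ∪ Wb →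
      dg Fi R p ≤ η * dg F R p + η * (inc P F R / P.card) := by
    intro p hp hpS hpT
    rw [← hI, ← hn]
    have hk' : 0 ≤ η * (I / n) := by positivity
    have hd' : 0 ≤ η * dg F R p := mul_nonneg hη0.le (dg_nonneg _ _ _)
    have hle : dg Fi R p ≤ dg F R p := by
      rw [hin]; exact sh_le_dg F R s p B _
    by_cases h0 : p ∈ P₀
    · by_cases h1 : ε₁ * ρ ≤ rp p
      · have h2 : ¬ η * dg F R p ≤ dg Fi R p := by
          intro h2
          exact hpT (Finset.mem_union_right _ (Finset.mem_filter.2 ⟨h0, h1, h2⟩))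
        push Not at h2
        linarith
      · have hpP₁ : p ∈ P₁ := Finset.mem_filter.2 ⟨h0, h1⟩
        have h2 : ri < dist (Ap p) B := by
          by_contra h2
          push Not at h2
          exact hpS (Finset.mem_filter.2 ⟨hpP₁, h2⟩)
        have h3 : ri + 4 * ε₁ * ρ < dist (Ap p) B := by
          by_contra h3
          push Not at h3
          exact hpT (Finset.mem_union_left _ (Finset.mem_filter.2 ⟨hpP₁, h2, h3⟩))
        push Not at h1
        have h4 : sh F R s p B (ri + ε₁ * ρ) ≤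
            (cnt F (fun f => R p f ∧ rp p < dist (s f) (Ap p)) : ℝ) := by
          unfold sh
          refine Nat.cast_le.2 <| cnt_mono (Finset.Subset.refl F) (fun f _ h' => ⟨h'.1, ?_⟩)
          have h5 := dist_triangle (Ap p) (s f) B
          rw [dist_comm (Ap p) (s f)] at h5
          have h6 : 0 < ε₁ * ρ := by positivity
          linarith [h'.2]
        have h5 := sh_add F R s p (Ap p) (rp p)
        have h6 := (hrp p h0).2.2.1
        rw [hin]
        linarith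
    · have := hpoor p hp h0
      linarith
  have hTsum : ∑ p ∈ Ann ∪ Wb, dg F R p ≤ 3 * η * I := by
    have h1 := hext2 Ann ((Finset.filter_subset _ _).trans (hP₁P.trans hP₀P)) hAnncard
    have h2 := hext2 Wb ((Finset.filter_subset _ _).trans hP₀P) hWbcard.le
    have h3 : ∑ p ∈ Ann ∪ Wb, dg F R p ≤ ∑ p ∈ Ann, dg F R p + ∑ p ∈ Wb, dg F R p := by
      rw [← Finset.sum_union_inter]
      exact le_add_of_nonneg_right (Finset.sum_nonneg (fun p _ => dg_nonneg _ _ _))
    linarith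
  obtain ⟨a, ha⟩ : ∃ a : ℝ, a = (S.card : ℝ) / n := ⟨_, rfl⟩
  obtain ⟨b, hb⟩ : ∃ b : ℝ, b = (Fi.card : ℝ) / F.card := ⟨_, rfl⟩
  have hy := hExt S hSP Fi hFiF
  rw [← hI, ← hn, ← ha, ← hb] at hy
  have hz := hExt (P \ S) Finset.sdiff_subset (F \ Fi) Finset.sdiff_subset
  have hc1' : ((P \ S).card : ℝ) / P.card = 1 - a := by
    rw [Finset.card_sdiff_of_subset hSP, Nat.cast_sub (Finset.card_le_card hSP), ha, hn, sub_div,
      div_self (by rw [← hn]; linarith)]
  have hc2' : ((F \ Fi).card : ℝ) / F.card = 1 - b := by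
    rw [Finset.card_sdiff_of_subset hFiF, Nat.cast_sub (Finset.card_le_card hFiF), hb, sub_div,
      div_self hFc.ne']
  rw [hc1', hc2', ← hI] at hz
  have hb0 : 0 ≤ b := by rw [hb]; positivity
  have hb1 : b ≤ 1 := by
    rw [hb, div_le_one hFc]
    exact_mod_cast Finset.card_le_card hFiF
  have ha1 : 1 / (4 * N₁) ≤ a := by
    rw [ha, le_div_iff₀ (by linarith)]
    exact hScard
  have ha2 : a ≤ 1 / 2 := by
    rw [ha, div_le_iff₀ (by linarith)]
    linarith
  have hH := hHOLD (1 / (4 * N₁)) a b (by positivity) ha1 ha2 hb0 hb1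
  have hfin := final_sum P S (Ann ∪ Wb) F Fi R η _ _ _ hη0.le hP hSP hFiF hout hinn hTsum hy hz
  rw [← hI] at hfin
  have h10 : 1 / (4 * (N₁ : ℝ)) / 3 = 10 * η := by rw [hη]; field_simp; norm_num
  rw [h10] at hH
  have h11 : I * ((a * b) ^ (2 / 3 : ℝ) + η / 2) + I * (((1 - a) * (1 - b)) ^ (2 / 3 : ℝ) + η / 2) ≤
      I * (1 - 10 * η + η) := by
    rw [← mul_add]
    exact mul_le_mul_of_nonneg_left (by linarith) hI0.le
  nlinarith

end Pool.Agent.Helper57.ZF
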