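import Mathlib

/-!
Project ZF (MP_ef0af8_co): point/flat incidences.  Common definitions.
-/

set_option autoImplicit false

namespace Pool.Agent.Helper57.ZF

open scoped Classical in
/-- The number of elements of `s` with the property `q`. -/
noncomputable def cnt {α : Type} (s : Finset α) (q : α → Prop) : ℕ := (s.filter q).card

/-- `cnt` with any decidability instance. -/
theorem cnt_eq {α : Type} (s : Finset α) (q : α → Prop) [DecidablePred q] :
    cnt s q = (s.filter q).card := by
  unfold cnt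
  congr

/-- The number of incidences of `P` and `F`. -/
noncomputable def inc {α β : Type} (P : Finset α) (F : Finset β) (R : α → β → Prop) : ℕ :=
  ∑ p ∈ P, cnt F (R p)

/-- Doubling, in packing form: an `r`-separated finite set in a ball of radius `Λ r` has at most
`N(Λ)` elements. -/
def Dbl (M : Type) [PseudoMetricSpace M] : Prop :=
  ∀ Λ : ℝ, ∃ N : ℕ, ∀ (r : ℝ) (c : M) (s : Finset M), 0 < r →
    (∀ x ∈ s, dist x c ≤ Λ * r) → (∀ x ∈ s, ∀ y ∈ s, x ≠ y → r ≤ dist x y) → s.card ≤ N

/-- Radii `rad`, leaves `L` and the nearest-leaf map `w` of a finite set `P`. -/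
structure Leaf {M : Type} [MetricSpace M] (P : Finset M) (t : ℕ) (rad : M → ℝ) (L : Finset M)
    (w : M → M) : Prop where
  t2 : 2 ≤ t
  radpos : ∀ p ∈ P, 0 < rad p
  big : ∀ p ∈ P, t ≤ cnt P (fun x => dist x p ≤ rad p)
  small : ∀ p ∈ P, cnt P (fun x => dist x p < rad p) < t
  sub : L ⊆ P
  sep : ∀ p ∈ L, ∀ q ∈ L, p ≠ q → 8 * rad p < dist p q
  dom : ∀ p ∈ P, ∃ q ∈ L, rad q ≤ rad p ∧ dist p q ≤ 8 * rad p
  wmem : ∀ p ∈ P, w p ∈ L
  wmin : ∀ p ∈ P, ∀ q ∈ L, dist p (w p) ≤ dist p q

/-- Some leaf is at distance comparable to `dist p (w p)` from `w p`. -/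
def Crowded {M : Type} [MetricSpace M] (L : Finset M) (w : M → M) (p : M) : Prop :=
  ∃ q ∈ L, dist p (w p) / 32 < dist q (w p) ∧ dist q (w p) ≤ 32 * dist p (w p)

/-- Far and not crowded. -/
def IsoP {M : Type} [MetricSpace M] (rad : M → ℝ) (L : Finset M) (w : M → M) (p : M) : Prop :=
  32 * rad (w p) < dist p (w p) ∧ ¬ Crowded L w p

open scoped Classical in
/-- The leaves close to `w p`, at the scale of `p`. -/
noncomputable def clus {M : Type} [MetricSpace M] (L : Finset M) (w : M → M) (p : M) : Finset M :=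
  L.filter (fun q => dist q (w p) ≤ dist p (w p) / 32)

/-- `z` is on the graph `y = A x + b`, `f = (A, b)`. -/
def On {E : Type} [NormedAddCommGroup E] [NormedSpace ℝ E] (z : E × E) (f : (E →L[ℝ] E) × E) :
    Prop := z.2 = f.1 z.1 + f.2

/-- `z` is on the graph `x = A y + b`, `f = (A, b)`. -/
def Ov {E : Type} [NormedAddCommGroup E] [NormedSpace ℝ E] (z : E × E) (f : (E →L[ℝ] E) × E) :
    Prop := z.1 = f.1 z.2 + f.2

/-- Any two distinct points of `P` are on at most one common member of `F`. -/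
def Lin {α β : Type} (P : Finset α) (F : Finset β) (R : α → β → Prop) : Prop :=
  ∀ p ∈ P, ∀ q ∈ P, p ≠ q → cnt F (fun f => R p f ∧ R q f) ≤ 1

/-- The Szemerédi–Trotter quantity. -/
noncomputable def bd (n m : ℕ) : ℝ := ((n : ℝ) * m) ^ (2 / 3 : ℝ) + n + m

/-- Near-extremality: sub-configurations have at most their expected share of the incidences. -/
def ExtP {α β : Type} (P : Finset α) (F : Finset β) (R : α → β → Prop) (ε : ℝ) : Prop :=
  ∀ P' ⊆ P, ∀ F' ⊆ F, (inc P' F' R : ℝ) ≤
    inc P F R * ((((P'.card : ℝ) / P.card) * ((F'.card : ℝ) / F.card)) ^ (2 / 3 : ℝ) + ε)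

/-- A cut of the slopes `s`: a positive proportion of the points have many flats with slope in the
ball of radius `r` about `B` and many with slope outside the ball of radius `K r`. -/
def HasCut {α β X : Type} [PseudoMetricSpace X] (P : Finset α) (F : Finset β)
    (R : α → β → Prop) (s : β → X) (c K : ℝ) : Prop :=
  ∃ (B : X) (r : ℝ), 0 < r ∧ c * P.card ≤ cnt P (fun p =>
    c * inc P F R ≤ P.card * cnt F (fun f => R p f ∧ dist (s f) B ≤ r) ∧
    c * inc P F R ≤ P.card * cnt F (fun f => R p f ∧ K * r < dist (s f) B))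

/-- Distinct flats of `F` through a common point of `P` are `κ`-conformally transversal. -/
def Conf {E : Type} [NormedAddCommGroup E] [NormedSpace ℝ E] (κ : ℝ) (P : Finset (E × E))
    (F : Finset ((E →L[ℝ] E) × E)) : Prop :=
  ∀ f ∈ F, ∀ g ∈ F, f ≠ g → ∀ p ∈ P, On p f → On p g →
    ∀ v : E, ‖f.1 - g.1‖ * ‖v‖ ≤ κ * ‖(f.1 - g.1) v‖

end Pool.Agent.Helper57.ZF
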