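import Pool.Agent.Helper57.ZF.Defs

/-!
Project ZF: packet statements (paper proofs in the handoff table).
-/

set_option autoImplicit false

namespace Pool.Agent.Helper57.ZF

/-! ### Part 1: the covering lemma -/

def G_DBL : Prop := ∀ (E : Type) [NormedAddCommGroup E] [NormedSpace ℝ E]
  [FiniteDimensional ℝ E], Dbl E

def G_MSEP : Prop := ∀ (M : Type) [MetricSpace M] (T : Finset M) (r : ℝ), 0 < r →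
  ∃ S ⊆ T, (∀ x ∈ S, ∀ y ∈ S, x ≠ y → r ≤ dist x y) ∧ ∀ x ∈ T, ∃ y ∈ S, dist x y < r

def G_RAD : Prop := ∀ (M : Type) [MetricSpace M] (P : Finset M) (t : ℕ), 2 ≤ t → t ≤ P.card →
  ∃ rad : M → ℝ, ∀ p ∈ P, 0 < rad p ∧ t ≤ cnt P (fun x => dist x p ≤ rad p) ∧
    cnt P (fun x => dist x p < rad p) < t

def G_GL : Prop := ∀ (M : Type) [MetricSpace M] (P : Finset M) (rad : M → ℝ),
  (∀ p ∈ P, 0 < rad p) → ∃ L ⊆ P, (∀ p ∈ L, ∀ q ∈ L, p ≠ q → 8 * rad p < dist p q) ∧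
    ∀ p ∈ P, ∃ q ∈ L, rad q ≤ rad p ∧ dist p q ≤ 8 * rad p

def G_LC : Prop := ∀ (M : Type) [MetricSpace M], Dbl M → ∀ Λ : ℝ, ∃ N : ℕ,
  ∀ (P : Finset M) (t : ℕ) (rad : M → ℝ), (∀ p ∈ P, cnt P (fun x => dist x p < rad p) < t) →
    ∀ (c : M) (R σ : ℝ), 0 < σ → R ≤ Λ * σ → cnt P (fun p => dist p c ≤ R ∧ σ ≤ rad p) ≤ N * t

def G_TEL : Prop := ∀ (pk : ℤ → ℕ) (B : ℕ) (I : Finset ℤ) (a : ℤ → ℕ), Antitone pk →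
  (∀ m, pk m ≤ B) → (∀ m ∈ I, pk (m + 8) + a m ≤ pk (m - 5)) → ∑ m ∈ I, a m ≤ 13 * B

def G_PK : Prop := ∀ (M : Type) [MetricSpace M], Dbl M → ∃ N : ℕ, 0 < N ∧
  ∀ (L T A : Finset M) (s : ℝ), 0 < s → T ⊆ L →
    (∀ x ∈ T, ∀ y ∈ T, x ≠ y → 256 * s ≤ dist x y) → A ⊆ L →
    (∀ x ∈ A, ∀ y ∈ A, x ≠ y → s ≤ dist x y) →
    (∀ x ∈ A, ∃ y ∈ L, s / 32 < dist x y ∧ dist x y ≤ 64 * s) →
    ∃ T' ⊆ L, (∀ x ∈ T', ∀ y ∈ T', x ≠ y → s / 32 ≤ dist x y) ∧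
      N * T.card + A.card ≤ N * T'.card

def G_PN : Prop := ∀ (M : Type) [MetricSpace M], Dbl M → ∃ C : ℕ,
  ∀ (L : Finset M) (I : Finset ℤ) (A : ℤ → Finset M),
    (∀ m ∈ I, A m ⊆ L ∧ (∀ x ∈ A m, ∀ y ∈ A m, x ≠ y → (2 : ℝ) ^ m ≤ dist x y) ∧
      ∀ x ∈ A m, ∃ y ∈ L, (2 : ℝ) ^ m / 32 < dist x y ∧ dist x y ≤ 64 * (2 : ℝ) ^ m) →
    ∑ m ∈ I, (A m).card ≤ C * L.card

def G_NEAR : Prop := ∀ (M : Type) [MetricSpace M], Dbl M → ∃ C : ℕ,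
  ∀ (P : Finset M) (t : ℕ) (rad : M → ℝ) (L : Finset M) (w : M → M), Leaf P t rad L w →
    cnt P (fun p => dist p (w p) ≤ 32 * rad (w p)) ≤ C * t * L.card

def G_CROWD : Prop := ∀ (M : Type) [MetricSpace M], Dbl M → ∃ C : ℕ,
  ∀ (P : Finset M) (t : ℕ) (rad : M → ℝ) (L : Finset M) (w : M → M), Leaf P t rad L w →
    cnt P (fun p => 32 * rad (w p) < dist p (w p) ∧ Crowded L w p) ≤ C * t * L.card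

open scoped Classical in
def G_CLUS : Prop := ∀ (M : Type) [MetricSpace M], Dbl M → ∃ C : ℕ,
  ∀ (P : Finset M) (t : ℕ) (rad : M → ℝ) (L : Finset M) (w : M → M), Leaf P t rad L w →
    ((P.filter (fun p => IsoP rad L w p)).image (fun p => clus L w p)).card ≤ C * L.card

def G_BLK : Prop := ∀ (α : Type) (Q : Finset α) (f : α → ℝ) (t : ℕ), 0 < t →
  ∃ (k : ℕ) (B : ℕ → Finset α), (∀ i < k, B i ⊆ Q ∧ (B i).card = t) ∧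
    (∀ i < k, ∀ j < k, i < j → Disjoint (B i) (B j) ∧ ∀ x ∈ B i, ∀ y ∈ B j, f x ≤ f y) ∧
    Q.card < t * (k + 1)

def G_OVL : Prop := ∀ (α : Type) (Q : Finset α) (f : α → ℝ) (t k : ℕ) (B : ℕ → Finset α)
  (δ : ℝ) (J : Finset ℕ), (∀ i < k, B i ⊆ Q ∧ (B i).card = t) →
    (∀ i < k, ∀ j < k, i < j → Disjoint (B i) (B j) ∧ ∀ x ∈ B i, ∀ y ∈ B j, f x ≤ f y) →
    (∀ i ∈ J, i < k ∧ (∃ x ∈ B i, f x ≤ 2 * δ) ∧ ∃ y ∈ B i, δ ≤ 2 * f y) →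
    J.card * t ≤ cnt Q (fun x => δ ≤ 2 * f x ∧ f x ≤ 2 * δ) + 2 * t

def G_ISO : Prop := ∀ (M : Type) [MetricSpace M] (P : Finset M) (t : ℕ) (rad : M → ℝ)
  (L : Finset M) (w : M → M), Leaf P t rad L w →
    ∀ p ∈ P, ∀ p' ∈ P, IsoP rad L w p → IsoP rad L w p' → clus L w p = clus L w p' →
    ∀ u ∈ clus L w p, ∀ δ : ℝ, dist p u / 2 < δ → δ ≤ 2 * dist p' u →
      0 < δ ∧ (∀ q ∈ clus L w p, dist q u ≤ δ / 7) ∧ ∀ q ∈ L, dist q u ≤ 15 * δ → q ∈ clus L w p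

def G_DISJ : Prop := ∀ (M : Type) [MetricSpace M] (L c c' : Finset M) (u u' z : M) (δ δ' : ℝ),
  c ⊆ L → c' ⊆ L → u ∈ c → u' ∈ c' → 0 < δ → 0 < δ' → dist z u = δ → dist z u' = δ' →
    (∀ q ∈ c, dist q u ≤ δ / 7) → (∀ q ∈ L, dist q u ≤ 15 * δ → q ∈ c) →
    (∀ q ∈ c', dist q u' ≤ δ' / 7) → (∀ q ∈ L, dist q u' ≤ 15 * δ' → q ∈ c') → c = c'

def G_CL : Prop := ∀ (M : Type) [MetricSpace M], Dbl M → ∃ C : ℕ,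
  ∀ (P : Finset M) (t : ℕ), 2 ≤ t → t ≤ P.card →
    ∃ (ι : Type) (I : Finset ι) (S : ι → Finset M) (w : ι → M) (b ρ : ι → ℝ),
      (∀ i ∈ I, S i ⊆ P ∧ t ≤ (S i).card ∧ (b i < 0 ∨ 0 < b i) ∧
        ∀ p ∈ S i, dist p (w i) ≤ ρ i ∧ 2 * b i ≤ dist p (w i)) ∧
      (∀ z : M, cnt I (fun i => b i < dist z (w i) ∧ dist z (w i) ≤ 2 * ρ i) ≤ C) ∧
      P.card ≤ C * t * I.card

/-! ### Part 2: the bilinear lemma -/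

def G_CNT : Prop := ∀ (α β : Type) (T : Finset α) (F : Finset β) (R : α → β → Prop) (k : ℕ),
  (∀ p ∈ T, k ≤ cnt F (R p)) → T.card ≤ k → Lin T F R →
    T.card * k ≤ 2 * cnt F (fun f => ∃ p ∈ T, R p f)

def G_MEET : Prop := ∀ (E : Type) [NormedAddCommGroup E] [NormedSpace ℝ E]
  [FiniteDimensional ℝ E] (f g : (E →L[ℝ] E) × E), ‖f.1‖ ≤ 1 / 5 → ‖g.1‖ ≤ 1 / 5 →
    ∃! z : E × E, On z f ∧ Ov z g

def G_LOC : Prop := ∀ (E : Type) [NormedAddCommGroup E] [NormedSpace ℝ E]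
  (f g : (E →L[ℝ] E) × E) (w p q z : E × E) (ρ : ℝ), ‖f.1‖ ≤ 1 / 5 → ‖g.1‖ ≤ 1 / 5 →
    dist p w ≤ ρ → dist q w ≤ ρ → On p f → On z f → Ov q g → Ov z g → dist z w ≤ 2 * ρ

def G_LOCY : Prop := ∀ (E : Type) [NormedAddCommGroup E] [NormedSpace ℝ E]
  (f : (E →L[ℝ] E) × E) (w p z : E × E) (b : ℝ), ‖f.1‖ ≤ 1 / 5 → 0 < b →
    2 * b ≤ dist p w → dist p w ≤ dist p.2 w.2 → On p f → On z f → b < dist z w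

def G_LOCX : Prop := ∀ (E : Type) [NormedAddCommGroup E] [NormedSpace ℝ E]
  (g : (E →L[ℝ] E) × E) (w p z : E × E) (b : ℝ), ‖g.1‖ ≤ 1 / 5 → 0 < b →
    2 * b ≤ dist p w → dist p w ≤ dist p.1 w.1 → Ov p g → Ov z g → b < dist z w

def G_BLG : Prop := ∀ (E : Type) [NormedAddCommGroup E] [NormedSpace ℝ E]
  (S : Finset (E × E)) (F₁ F₂ : Finset ((E →L[ℝ] E) × E)) (k : ℕ) (w : E × E) (b ρ : ℝ),
    (∀ f ∈ F₁, ‖f.1‖ ≤ 1 / 5) → (∀ f ∈ F₂, ‖f.1‖ ≤ 1 / 5) → Lin S F₁ On → Lin S F₂ Ov →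
    (∀ p ∈ S, k ≤ cnt F₁ (On p)) → (∀ p ∈ S, k ≤ cnt F₂ (Ov p)) → k ≤ S.card →
    (b < 0 ∨ 0 < b) → (∀ p ∈ S, dist p w ≤ ρ ∧ 2 * b ≤ dist p w) →
    ∃ G₁ ⊆ F₁, ∃ G₂ ⊆ F₂, k * k ≤ 4 * G₁.card ∧ k * k ≤ 4 * G₂.card ∧
      ∀ f ∈ G₁, ∀ g ∈ G₂, ∀ z : E × E, On z f → Ov z g → b < dist z w ∧ dist z w ≤ 2 * ρ

def G_BL : Prop := ∀ (E : Type) [NormedAddCommGroup E] [NormedSpace ℝ E]
  [FiniteDimensional ℝ E], ∃ C : ℕ, ∀ (P : Finset (E × E)) (F₁ F₂ : Finset ((E →L[ℝ] E) × E))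
    (k : ℕ), (∀ f ∈ F₁, ‖f.1‖ ≤ 1 / 5) → (∀ f ∈ F₂, ‖f.1‖ ≤ 1 / 5) → Lin P F₁ On →
    Lin P F₂ Ov → (∀ p ∈ P, k ≤ cnt F₁ (On p)) → (∀ p ∈ P, k ≤ cnt F₂ (Ov p)) →
    P.card * k ^ 3 ≤ C * (F₁.card * F₂.card) ∨ P.card * k ≤ 2 * F₁.card

/-! ### Part 3: the cut lemma -/

def G_MINR : Prop := ∀ (D : Finset ℝ) (Q : ℝ → Prop), (∀ r, Q r → ∃ d ∈ D, d ≤ r ∧ Q d) →
  (∃ r, Q r) → ∃ ρ ∈ D, Q ρ ∧ ∀ r < ρ, ¬ Q r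

open scoped Classical in
def G_NETP : Prop := ∀ (X : Type) [MetricSpace X], Dbl X → ∀ Λ : ℝ, ∃ N : ℕ, 0 < N ∧
  ∀ (α β : Type) (W : Finset α) (F : Finset β) (R : α → β → Prop) (s : β → X) (A : X)
    (r c : ℝ), 0 < r → F.Nonempty →
    (∀ p ∈ W, c ≤ cnt F (fun f => R p f ∧ dist (s f) A ≤ Λ * r)) →
    ∃ B ∈ F.image s, (W.card : ℝ) ≤
      N * cnt W (fun p => c ≤ N * cnt F (fun f => R p f ∧ dist (s f) B ≤ r))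

def G_ANN : Prop := ∀ (α : Type) (Q : Finset α) (g : α → ℝ) (a h : ℝ) (L : ℕ), 0 < h → 0 < L →
  ∃ i < L, L * cnt Q (fun p => a + i * h < g p ∧ g p ≤ a + (i + 1) * h) ≤ Q.card

def G_HOLD : Prop := ∀ a α β : ℝ, 0 < a → a ≤ α → α ≤ 1 / 2 → 0 ≤ β → β ≤ 1 →
  (α * β) ^ (2 / 3 : ℝ) + ((1 - α) * (1 - β)) ^ (2 / 3 : ℝ) ≤ 1 - a / 3

def G_CUT : Prop := ∀ (X : Type) [MetricSpace X], Dbl X → ∀ K : ℝ, 1 ≤ K →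
  ∃ ε c : ℝ, 0 < ε ∧ 0 < c ∧ ∀ (α β : Type) (P : Finset α) (F : Finset β) (R : α → β → Prop)
    (s : β → X), P.Nonempty → ExtP P F R ε →
    (∀ p ∈ P, ∀ f ∈ F, ∀ g ∈ F, f ≠ g → R p f → R p g → s f ≠ s g) →
    (P.card : ℝ) ≤ c * inc P F R → HasCut P F R s c K

/-! ### Part 4: extremal configurations and the main theorem -/

def G_TRIV : Prop := ∀ (α β : Type) (P : Finset α) (F : Finset β) (R : α → β → Prop),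
  Lin P F R → inc P F R ≤ P.card ^ 2 + F.card ∧ inc P F R ≤ F.card ^ 2 + P.card

def G_EXT : Prop := ∀ ε : ℝ, 0 < ε → ∃ M₀ : ℝ, ∀ M : ℝ, M₀ ≤ M → ∀ (α β : Type) (P : Finset α)
  (F : Finset β) (R : α → β → Prop), Lin P F R → M * bd P.card F.card < inc P F R →
    ∃ P' ⊆ P, ∃ F' ⊆ F, M * bd P'.card F'.card < inc P' F' R ∧ ExtP P' F' R ε ∧
      (P'.card : ℝ) ≤ ε * inc P' F' R

def G_INV : Prop := ∀ (E : Type) [NormedAddCommGroup E] [NormedSpace ℝ E]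
  [FiniteDimensional ℝ E] (A : E →L[ℝ] E), (∀ v, 5 * ‖v‖ ≤ ‖A v‖) →
    ∃ A' : E →L[ℝ] E, ‖A'‖ ≤ 1 / 5 ∧ ∀ x y : E, y = A x ↔ x = A' y

def G_TRANS : Prop := ∀ (E : Type) [NormedAddCommGroup E] [NormedSpace ℝ E]
  [FiniteDimensional ℝ E], ∃ C : ℕ, ∀ (P : Finset (E × E)) (F₁ F₂ : Finset ((E →L[ℝ] E) × E))
    (B : E →L[ℝ] E) (r : ℝ) (k : ℕ), 0 < r → (∀ f ∈ F₁, ‖f.1 - B‖ ≤ r) →
    (∀ f ∈ F₂, ∀ v, 25 * r * ‖v‖ ≤ ‖(f.1 - B) v‖) → Lin P F₁ On → Lin P F₂ On →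
    (∀ p ∈ P, k ≤ cnt F₁ (On p)) → (∀ p ∈ P, k ≤ cnt F₂ (On p)) →
    P.card * k ^ 3 ≤ C * (F₁.card * F₂.card) ∨ P.card * k ≤ 2 * F₁.card

def G_MAINI : Prop := ∀ (E : Type) [NormedAddCommGroup E] [NormedSpace ℝ E]
  [FiniteDimensional ℝ E] (κ : ℝ), ∃ C : ℝ, ∀ (P : Finset (E × E))
    (F : Finset ((E →L[ℝ] E) × E)), Conf κ P F → (inc P F On : ℝ) ≤ C * bd P.card F.card

/-! ### Part 5: from `d`-flats of `ℝ^(2d)` to graphs -/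

/-- The half of the coordinates of `v` indexed by `e ∘ σ`. -/
noncomputable def slc (d : ℕ) (e : Fin d ⊕ Fin d ≃ Fin (2 * d)) (σ : Fin d → Fin d ⊕ Fin d)
    (v : EuclideanSpace ℝ (Fin (2 * d))) : EuclideanSpace ℝ (Fin d) :=
  WithLp.toLp 2 (fun i => v (e (σ i)))

def G_CHART : Prop := ∀ (d : ℕ) (V : Submodule ℝ (EuclideanSpace ℝ (Fin (2 * d)))),
  Module.finrank ℝ V = d → ∃ (e : Fin d ⊕ Fin d ≃ Fin (2 * d))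
    (A : EuclideanSpace ℝ (Fin d) →L[ℝ] EuclideanSpace ℝ (Fin d)), ‖A‖ ≤ d ∧
    ∀ v, v ∈ V ↔ slc d e Sum.inr v = A (slc d e Sum.inl v)

def G_PRANG : Prop := ∀ (d : ℕ) (e : Fin d ⊕ Fin d ≃ Fin (2 * d))
  (V V' : Submodule ℝ (EuclideanSpace ℝ (Fin (2 * d))))
  (A A' : EuclideanSpace ℝ (Fin d) →L[ℝ] EuclideanSpace ℝ (Fin d)) (κ : ℝ), 0 ≤ κ →
    ‖A‖ ≤ d → ‖A'‖ ≤ d → (∀ v, v ∈ V ↔ slc d e Sum.inr v = A (slc d e Sum.inl v)) →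
    (∀ v, v ∈ V' ↔ slc d e Sum.inr v = A' (slc d e Sum.inl v)) →
    (∀ v ∈ V, ∀ w ∈ V, ‖v‖ = 1 → ‖w‖ = 1 →
      Metric.infDist v (V' : Set (EuclideanSpace ℝ (Fin (2 * d)))) ≤
        κ * Metric.infDist w (V' : Set (EuclideanSpace ℝ (Fin (2 * d))))) →
    ∀ v : EuclideanSpace ℝ (Fin d), ‖A - A'‖ * ‖v‖ ≤ (1 + d) ^ 2 * κ * ‖(A - A') v‖

end Pool.Agent.Helper57.ZF
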