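import Pool.Agent.Helper57.ZF.CL

/-!
Project ZF: local count and group count.
-/

set_option autoImplicit false

namespace Pool.Agent.Helper57.ZF

open scoped Classical in
theorem LC_own (hM : G_MSEP) : G_LC := by
  intro M _ hD Λ
  obtain ⟨N, hN⟩ := hD Λ
  refine ⟨N, ?_⟩
  intro P t rad hrad c R σ hσ hR
  obtain ⟨S, hST, hsep, hcov⟩ := hM M (P.filter (fun p => dist p c ≤ R ∧ σ ≤ rad p)) σ hσ
  have hS : S.card ≤ N := by
    refine hN σ c S hσ (fun x hx => ?_) hsep
    have := (Finset.mem_filter.1 (hST hx)).2.1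
    exact this.trans hR
  rw [cnt_eq]
  have hsub : P.filter (fun p => dist p c ≤ R ∧ σ ≤ rad p) ⊆
      S.biUnion (fun q => P.filter (fun x => dist x q < rad q)) := by
    intro p hp
    obtain ⟨q, hq, hpq⟩ := hcov p hp
    rw [Finset.mem_biUnion]
    refine ⟨q, hq, Finset.mem_filter.2 ⟨(Finset.mem_filter.1 hp).1, ?_⟩⟩
    exact lt_of_lt_of_le hpq (Finset.mem_filter.1 (hST hq)).2.2
  calc (P.filter (fun p => dist p c ≤ R ∧ σ ≤ rad p)).card
      ≤ (S.biUnion (fun q => P.filter (fun x => dist x q < rad q))).card :=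
        Finset.card_le_card hsub
    _ ≤ ∑ q ∈ S, (P.filter (fun x => dist x q < rad q)).card := Finset.card_biUnion_le
    _ ≤ ∑ _q ∈ S, t := by
        refine Finset.sum_le_sum (fun q hq => ?_)
        have := hrad q (Finset.mem_filter.1 (hST hq)).1
        rw [cnt_eq] at this
        exact this.le
    _ = S.card * t := by rw [Finset.sum_const, smul_eq_mul]
    _ ≤ N * t := Nat.mul_le_mul_right _ hS

end Pool.Agent.Helper57.ZF
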