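import Pool.Agent.Helper57.ZF.Wrap

/-!
The notions of the result for `MP_ef0af8_co`, in a form which prints briefly.
-/

set_option autoImplicit false

namespace Pool.Agent.Helper57.ZF.Stmt

/-- Euclidean space of dimension `2 d`. -/
def Pt (d : ℕ) : Type := EuclideanSpace ℝ (Fin (2 * d))

noncomputable instance instNACG (d : ℕ) : NormedAddCommGroup (Pt d) :=
  inferInstanceAs (NormedAddCommGroup (EuclideanSpace ℝ (Fin (2 * d))))

noncomputable instance instNS (d : ℕ) : NormedSpace ℝ (Pt d) :=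
  inferInstanceAs (NormedSpace ℝ (EuclideanSpace ℝ (Fin (2 * d))))

/-- The affine subspaces of `ℝ^(2d)`. -/
def Aff (d : ℕ) : Type := AffineSubspace ℝ (Pt d)

/-- The points of an affine subspace. -/
noncomputable def pts {d : ℕ} (Q : Aff d) : Set (Pt d) := SetLike.coe (show AffineSubspace ℝ (Pt d) from Q)

/-- The direction of an affine subspace, as a linear subspace. -/
noncomputable def dirSub {d : ℕ} (Q : Aff d) : Submodule ℝ (Pt d) :=
  AffineSubspace.direction (show AffineSubspace ℝ (Pt d) from Q)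

/-- The direction of an affine subspace, as a set of vectors. -/
noncomputable def dir {d : ℕ} (Q : Aff d) : Set (Pt d) := SetLike.coe (dirSub Q)

/-- `Q` is a `d`-flat of `ℝ^(2d)`. -/
def IsFlat {d : ℕ} (Q : Aff d) : Prop := (pts Q).Nonempty ∧ Module.finrank ℝ (dirSub Q) = d

/-- The distance of the vector `v` to the direction of `Q`. -/
noncomputable def distDir {d : ℕ} (v : Pt d) (Q : Aff d) : ℝ := Metric.infDist v (dir Q)

/-- The sines of the principal angles of the directions of `Q` and `Q'` are within a factor `κ` of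
each other: the distances to the direction of `Q'` of any two unit vectors of the direction of `Q`
are comparable. -/
def Comparable {d : ℕ} (κ : ℝ) (Q Q' : Aff d) : Prop :=
  ∀ v ∈ dir Q, ∀ w ∈ dir Q, ‖v‖ = 1 → ‖w‖ = 1 → distDir v Q' ≤ κ * distDir w Q'

/-- The number of incidences between the points of `P` and the members of `F`. -/
noncomputable def incidences {d : ℕ} (P : Finset (Pt d)) (F : Finset (Aff d)) : ℕ :=
  Set.ncard {z : Pt d × Aff d | z.1 ∈ P ∧ z.2 ∈ F ∧ z.1 ∈ pts z.2}

open Classical in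
theorem incidences_eq {d : ℕ} (P : Finset (Pt d)) (F : Finset (Aff d)) :
    incidences P F = ZF.incidences d P (show Finset (AffineSubspace ℝ (Sp d)) from F) := by
  unfold incidences ZF.incidences
  rw [← Set.ncard_coe_finset]
  apply congrArg Set.ncard
  apply Set.ext
  intro z
  constructor
  · intro h
    have h1 : z.1 ∈ P ∧ z.2 ∈ F ∧ z.1 ∈ pts z.2 := h
    exact Finset.mem_coe.mpr (Finset.mem_filter.mpr
      ⟨Finset.mem_product.mpr ⟨h1.1, h1.2.1⟩, h1.2.2⟩)
  · intro h
    have h1 := Finset.mem_filter.mp (Finset.mem_coe.mp h)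
    have h2 := Finset.mem_product.mp h1.1
    exact ⟨h2.1, h2.2, h1.2⟩

/-- The statement, in the printable notions. -/
theorem main_stmt (h : MainStmt) : ∀ (d : ℕ) (κ : ℝ), ∃ C : ℝ, ∀ (P : Finset (Pt d))
    (F : Finset (Aff d)), (∀ Q ∈ F, IsFlat Q) →
      (∀ Q ∈ F, ∀ Q' ∈ F, Q ≠ Q' → ∀ p ∈ P, p ∈ pts Q → p ∈ pts Q' → Comparable κ Q Q') →
      (incidences P F : ℝ) ≤ C * ((P.card : ℝ) ^ (2 / 3 : ℝ) * (F.card : ℝ) ^ (2 / 3 : ℝ) +
        P.card + F.card) := by
  intro d κ
  obtain ⟨C, hC⟩ := h d κ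
  refine ⟨C, ?_⟩
  intro P F hF hcomp
  rw [incidences_eq]
  exact hC P F (fun Q hQ => hF Q hQ) (fun Q hQ Q' hQ' hne p hp h1 h2 =>
    hcomp Q hQ Q' hQ' hne p hp h1 h2)

end Pool.Agent.Helper57.ZF.Stmt
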