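import Pool.Agent.Helper57.ZF.Goals
import Pool.Agent.Helper57.ZF.MainI

/-!
Project ZF: from `d`-flats of `ℝ^(2d)` to graphs, assembly.
-/

set_option autoImplicit false

namespace Pool.Agent.Helper57.ZF

/-- Euclidean space of dimension `2 d`. -/
abbrev Sp (d : ℕ) : Type := EuclideanSpace ℝ (Fin (2 * d))

/-- `Π` is a `d`-flat of `ℝ^(2d)`. -/
def IsFlat (d : ℕ) (Q : AffineSubspace ℝ (Sp d)) : Prop :=
  (Q : Set (Sp d)).Nonempty ∧ Module.finrank ℝ Q.direction = d

/-- The sines of the principal angles of (the directions of) `Q` and `Q'` are within a factor `κ`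
of each other: the distances to the direction of `Q'` of two unit vectors of the direction of `Q`
are comparable. -/
def Comparable (d : ℕ) (κ : ℝ) (Q Q' : AffineSubspace ℝ (Sp d)) : Prop :=
  ∀ v ∈ Q.direction, ∀ w ∈ Q.direction, ‖v‖ = 1 → ‖w‖ = 1 →
    Metric.infDist v (Q'.direction : Set (Sp d)) ≤ κ * Metric.infDist w (Q'.direction : Set (Sp d))

open scoped Classical in
/-- The number of incidences between `P` and `F`. -/
noncomputable def incidences (d : ℕ) (P : Finset (Sp d)) (F : Finset (AffineSubspace ℝ (Sp d))) :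
    ℕ := ((P ×ˢ F).filter (fun x => x.1 ∈ x.2)).card

/-- The statement of the result. -/
def MainStmt : Prop := ∀ (d : ℕ) (κ : ℝ), ∃ C : ℝ, ∀ (P : Finset (Sp d))
  (F : Finset (AffineSubspace ℝ (Sp d))), (∀ Q ∈ F, IsFlat d Q) →
    (∀ Q ∈ F, ∀ Q' ∈ F, Q ≠ Q' → ∀ p ∈ P, p ∈ Q → p ∈ Q' → Comparable d κ Q Q') →
    (incidences d P F : ℝ) ≤ C * ((P.card : ℝ) ^ (2 / 3 : ℝ) * (F.card : ℝ) ^ (2 / 3 : ℝ) +
      P.card + F.card)

theorem slc_sub (d : ℕ) (e : Fin d ⊕ Fin d ≃ Fin (2 * d)) (σ : Fin d → Fin d ⊕ Fin d)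
    (v w : Sp d) : slc d e σ (v - w) = slc d e σ v - slc d e σ w := by
  ext i
  simp [slc]

/-- The two halves of the coordinates. -/
noncomputable def tp (d : ℕ) (e : Fin d ⊕ Fin d ≃ Fin (2 * d)) (v : Sp d) :
    EuclideanSpace ℝ (Fin d) × EuclideanSpace ℝ (Fin d) :=
  (slc d e Sum.inl v, slc d e Sum.inr v)

theorem tp_injective (d : ℕ) (e : Fin d ⊕ Fin d ≃ Fin (2 * d)) : Function.Injective (tp d e) := by
  intro v w h
  unfold tp at h
  rw [Prod.mk.injEq] at h
  ext i
  obtain ⟨j, rfl⟩ := e.surjective i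
  rcases j with j | j
  · have := congrArg (fun x : EuclideanSpace ℝ (Fin d) => x j) h.1
    simpa [slc] using this
  · have := congrArg (fun x : EuclideanSpace ℝ (Fin d) => x j) h.2
    simpa [slc] using this

theorem bd_mono {n m m' : ℕ} (h : m ≤ m') : bd n m ≤ bd n m' := by
  unfold bd
  have h1 : (m : ℝ) ≤ m' := by exact_mod_cast h
  have h2 : ((n : ℝ) * m) ^ (2 / 3 : ℝ) ≤ ((n : ℝ) * m') ^ (2 / 3 : ℝ) :=
    Real.rpow_le_rpow (by positivity) (mul_le_mul_of_nonneg_left h1 (by positivity)) (by norm_num)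
  linarith

theorem bd_nonneg (n m : ℕ) : 0 ≤ bd n m := by
  unfold bd
  have : 0 ≤ ((n : ℝ) * m) ^ (2 / 3 : ℝ) := Real.rpow_nonneg (by positivity) _
  positivity

open scoped Classical in
/-- The theorem on `d`-flats, from its parts. -/
theorem WRAP_of (hMAINI : G_MAINI) (hCHART : G_CHART) (hPRANG : G_PRANG) : MainStmt := by
  intro d κ
  obtain ⟨κ', hκ'⟩ : ∃ κ' : ℝ, κ' = max κ 0 := ⟨_, rfl⟩
  have hκ0 : 0 ≤ κ' := by rw [hκ']; exact le_max_right _ _
  have hκκ : κ ≤ κ' := by rw [hκ']; exact le_max_left _ _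
  obtain ⟨C, hC⟩ := hMAINI (EuclideanSpace ℝ (Fin d)) ((1 + d) ^ 2 * κ')
  obtain ⟨C', hC'⟩ : ∃ C' : ℝ, C' = max C 0 := ⟨_, rfl⟩
  have hC0 : 0 ≤ C' := by rw [hC']; exact le_max_right _ _
  have hCC : C ≤ C' := by rw [hC']; exact le_max_left _ _
  refine ⟨Fintype.card (Fin d ⊕ Fin d ≃ Fin (2 * d)) * C', ?_⟩
  intro P F hflat hcomp
  -- charts
  have hch : ∀ Q : AffineSubspace ℝ (Sp d), ∃ (e : Fin d ⊕ Fin d ≃ Fin (2 * d))
      (f : (EuclideanSpace ℝ (Fin d) →L[ℝ] EuclideanSpace ℝ (Fin d)) × EuclideanSpace ℝ (Fin d)),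
      IsFlat d Q → ‖f.1‖ ≤ d ∧
        (∀ v, v ∈ Q.direction ↔ slc d e Sum.inr v = f.1 (slc d e Sum.inl v)) ∧
        ∀ x : Sp d, x ∈ Q ↔ On (tp d e x) f := by
    intro Q
    by_cases hQ : IsFlat d Q
    · obtain ⟨⟨p, hp⟩, hfin⟩ := hQ
      obtain ⟨e, A, hA, hV⟩ := hCHART d Q.direction hfin
      refine ⟨e, (A, slc d e Sum.inr p - A (slc d e Sum.inl p)), fun _ => ⟨hA, hV, ?_⟩⟩
      intro x
      have h1 : x ∈ Q ↔ x - p ∈ Q.direction := by
        constructor
        · intro hx
          exact AffineSubspace.vsub_mem_direction hx hp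
        · intro hx
          have := AffineSubspace.vadd_mem_of_mem_direction hx hp
          simpa using this
      rw [h1, hV, slc_sub, slc_sub, map_sub]
      unfold On tp
      simp only
      constructor
      · intro h
        rw [sub_eq_iff_eq_add] at h
        rw [h]
        abel
      · intro h
        rw [h]
        abel
    · have e : Fin d ⊕ Fin d ≃ Fin (2 * d) :=
        finSumFinEquiv.trans (finCongr (two_mul d).symm)
      exact ⟨e, (0, 0), fun h => absurd h hQ⟩
  choose eQ fQ hQ using hch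
  -- incidences per chart
  have hinc : (incidences d P F) = ∑ e : Fin d ⊕ Fin d ≃ Fin (2 * d),
      inc P (F.filter (fun Q => eQ Q = e)) (fun p Q => p ∈ Q) := by
    unfold incidences inc
    rw [Finset.sum_comm]
    rw [Finset.card_filter, Finset.sum_product]
    refine Finset.sum_congr rfl (fun p _ => ?_)
    rw [← Finset.card_filter]
    rw [Finset.card_eq_sum_card_fiberwise (f := eQ) (t := Finset.univ) (fun x _ => by simp)]
    refine Finset.sum_congr rfl (fun e _ => ?_)
    rw [cnt_eq, Finset.filter_filter, Finset.filter_filter]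
    congr 1
    ext Q
    simp only [Finset.mem_filter]
    tauto
  have hper : ∀ e : Fin d ⊕ Fin d ≃ Fin (2 * d),
      (inc P (F.filter (fun Q => eQ Q = e)) (fun p Q => p ∈ Q) : ℝ) ≤ C' * bd P.card F.card := by
    intro e
    set Fe := F.filter (fun Q => eQ Q = e) with hFe
    set P' := P.image (tp d e) with hP'
    set F' := Fe.image fQ with hF'
    have hPc : P'.card = P.card := Finset.card_image_of_injective _ (tp_injective d e)
    have hmem : ∀ Q ∈ Fe, ∀ x, x ∈ Q ↔ On (tp d e x) (fQ Q) := by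
      intro Q hQe x
      rw [hFe, Finset.mem_filter] at hQe
      have := (hQ Q (hflat Q hQe.1)).2.2 x
      rw [hQe.2] at this
      exact this
    have hfinj : Set.InjOn fQ (Fe : Set (AffineSubspace ℝ (Sp d))) := by
      intro Q hQ1 Q' hQ1' heq
      ext x
      rw [hmem Q hQ1 x, hmem Q' hQ1' x, heq]
    have hFc : F'.card ≤ F.card :=
      Finset.card_image_le.trans (Finset.card_le_card (Finset.filter_subset _ _))
    have hconf : Conf ((1 + d) ^ 2 * κ') P' F' := by
      intro f hf g hg hne z hz hzf hzg v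
      rw [hF', Finset.mem_image] at hf hg
      obtain ⟨Q, hQe, rfl⟩ := hf
      obtain ⟨Q', hQe', rfl⟩ := hg
      rw [hP', Finset.mem_image] at hz
      obtain ⟨p, hp, rfl⟩ := hz
      have hQQ : Q ≠ Q' := fun h => hne (by rw [h])
      have hpQ := (hmem Q hQe p).2 hzf
      have hpQ' := (hmem Q' hQe' p).2 hzg
      rw [hFe, Finset.mem_filter] at hQe hQe'
      have h1 := hQ Q (hflat Q hQe.1)
      have h2 := hQ Q' (hflat Q' hQe'.1)
      rw [hQe.2] at h1
      rw [hQe'.2] at h2
      refine hPRANG d e Q.direction Q'.direction (fQ Q).1 (fQ Q').1 κ' hκ0 h1.1 h2.1 h1.2.1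
        h2.2.1 ?_ v
      intro v hv w hw hv1 hw1
      refine (hcomp Q hQe.1 Q' hQe'.1 hQQ p hp hpQ hpQ' v hv w hw hv1 hw1).trans ?_
      exact mul_le_mul_of_nonneg_right hκκ Metric.infDist_nonneg
    have hmain := hC P' F' hconf
    have heq : inc P Fe (fun p Q => p ∈ Q) = inc P' F' On := by
      unfold inc
      rw [hP', Finset.sum_image (fun x _ y _ h => tp_injective d e h)]
      refine Finset.sum_congr rfl (fun p _ => ?_)
      rw [cnt_eq, cnt_eq, hF', Finset.filter_image]
      rw [Finset.card_image_of_injOn]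
      · congr 1
        refine Finset.filter_congr (fun Q hQe => ?_)
        exact hmem Q hQe p
      · exact hfinj.mono (by
          intro Q hQ1
          rw [Finset.mem_coe, Finset.mem_filter] at hQ1
          exact hQ1.1)
    rw [heq]
    calc (inc P' F' On : ℝ) ≤ C * bd P'.card F'.card := hmain
      _ ≤ C' * bd P'.card F'.card := mul_le_mul_of_nonneg_right hCC (bd_nonneg _ _)
      _ ≤ C' * bd P.card F.card := by
          rw [hPc]
          exact mul_le_mul_of_nonneg_left (bd_mono hFc) hC0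
  have hbd : bd P.card F.card = (P.card : ℝ) ^ (2 / 3 : ℝ) * (F.card : ℝ) ^ (2 / 3 : ℝ) +
      P.card + F.card := by
    unfold bd
    rw [Real.mul_rpow (Nat.cast_nonneg _) (Nat.cast_nonneg _)]
  rw [hinc, ← hbd]
  push_cast
  refine (Finset.sum_le_sum (fun e _ => hper e)).trans ?_
  rw [Finset.sum_const, nsmul_eq_mul, mul_assoc]
  exact le_rfl

end Pool.Agent.Helper57.ZF
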